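import Mathlib

open MeasureTheory Set Filter Topology
open scoped ENNReal NNReal

namespace Pool.Agent.Results.MP_98e33a_an.DimensionOne

/-- `L` is the Lueroth map of `[0,1]`, with an arbitrary value at the point `1`. -/
structure IsLuroth (L : ℝ → ℝ) : Prop where
  zero : L 0 = 0
  branch : ∀ n : ℕ, 1 ≤ n → ∀ x ∈ Ico (1 / ((n : ℝ) + 1)) (1 / (n : ℝ)),
    L x = n * (n + 1) * x - n
  one : L 1 ∈ Icc (0 : ℝ) 1

/-- The asymptotic set of `x`. -/
def AS (L : ℝ → ℝ) (x : ℝ) : Set ℝ :=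
  {y | y ∈ Icc (0 : ℝ) 1 ∧ Tendsto (fun n : ℕ => |L^[n] x - L^[n] y|) atTop (𝓝 0)}

/-- The set of the points whose asymptotic set has Hausdorff dimension `α`. -/
def Theta (L : ℝ → ℝ) (α : ℝ≥0∞) : Set ℝ := {x | x ∈ Icc (0 : ℝ) 1 ∧ dimH (AS L x) = α}

/-- Lueroth maps exist. -/
lemma exists_luroth : ∃ L : ℝ → ℝ, IsLuroth L := by
  classical
  refine ⟨fun x => if x = 0 ∨ x = 1 then 0 else
    ((⌈1 / x⌉₊ : ℝ) - 1) * (⌈1 / x⌉₊ : ℝ) * x - ((⌈1 / x⌉₊ : ℝ) - 1), ?_, ?_, ?_⟩
  · simp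
  · intro n hn x hx
    have hn' : (1 : ℝ) ≤ n := by exact_mod_cast hn
    have hx0 : 0 < x := lt_of_lt_of_le (by positivity) hx.1
    have hx1 : x < 1 := lt_of_lt_of_le hx.2 (by rw [div_le_one (by linarith)]; exact hn')
    have hc : ⌈1 / x⌉₊ = n + 1 := by
      rw [Nat.ceil_eq_iff (by omega)]
      have h1 := hx.1
      have h2 := hx.2
      rw [div_le_iff₀ (by linarith)] at h1
      rw [lt_div_iff₀ (by linarith)] at h2
      constructor
      · rw [lt_div_iff₀ hx0]
        push_cast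
        linarith
      · rw [div_le_iff₀ hx0]
        push_cast
        linarith
    beta_reduce
    rw [if_neg (by rintro (h | h) <;> linarith), hc]
    push_cast
    ring
  · simp

/-! ### Branches -/

/-- The inverse branch with digit `d`. -/
noncomputable def br (d : ℕ) (z : ℝ) : ℝ := 1 / (d : ℝ) + z / ((d : ℝ) * (d - 1))

/-- The length of a cylinder with digit `d`. -/
noncomputable def len (d : ℕ) : ℝ := 1 / ((d : ℝ) * (d - 1))

lemma cast_two_le {d : ℕ} (hd : 2 ≤ d) : (2 : ℝ) ≤ d := by exact_mod_cast hd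

lemma len_pos {d : ℕ} (hd : 2 ≤ d) : 0 < len d := by
  have := cast_two_le hd
  unfold len
  apply one_div_pos.2
  nlinarith

lemma len_le {d : ℕ} (hd : 2 ≤ d) : len d ≤ 1 / 2 := by
  have := cast_two_le hd
  unfold len
  apply one_div_le_one_div_of_le (by norm_num)
  nlinarith

lemma br_eq (d : ℕ) (z : ℝ) : br d z = 1 / (d : ℝ) + len d * z := by
  unfold br len
  rw [one_div_mul_eq_div]

lemma br_sub (d : ℕ) (z w : ℝ) : br d z - br d w = len d * (z - w) := by
  rw [br_eq, br_eq]; ring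

lemma len_eq {d : ℕ} (hd : 2 ≤ d) : len d = 1 / ((d : ℝ) - 1) - 1 / (d : ℝ) := by
  have := cast_two_le hd
  unfold len
  have h1 : (d : ℝ) - 1 ≠ 0 := by linarith
  have h2 : (d : ℝ) ≠ 0 := by linarith
  field_simp
  ring

lemma br_mem {d : ℕ} (hd : 2 ≤ d) {z : ℝ} (hz : z ∈ Ico (0 : ℝ) 1) :
    br d z ∈ Ico (1 / (d : ℝ)) (1 / ((d : ℝ) - 1)) := by
  have h1 := len_pos hd
  have h2 := len_eq hd
  rw [br_eq]
  constructor
  · nlinarith [hz.1]
  · nlinarith [hz.2]

lemma br_pos {d : ℕ} (hd : 2 ≤ d) {z : ℝ} (hz : 0 ≤ z) : 0 < br d z := by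
  have h1 := len_pos hd
  have := cast_two_le hd
  rw [br_eq]
  have : 0 < 1 / (d : ℝ) := by positivity
  nlinarith

lemma luroth_br {L : ℝ → ℝ} (hL : IsLuroth L) {d : ℕ} (hd : 2 ≤ d) {z : ℝ}
    (hz : z ∈ Ico (0 : ℝ) 1) : L (br d z) = z := by
  have h1 := br_mem hd hz
  have h2 := cast_two_le hd
  have hc : ((d - 1 : ℕ) : ℝ) = (d : ℝ) - 1 := by
    rw [Nat.cast_sub (by omega)]; simp
  have h3 := hL.branch (d - 1) (by omega) (br d z) (by
    rw [hc]
    simpa using h1)
  rw [h3, hc]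
  unfold br
  have h4 : (d : ℝ) - 1 ≠ 0 := by linarith
  have h5 : (d : ℝ) ≠ 0 := by linarith
  field_simp
  ring

/-- Every point of `(0,1)` lies in a branch. -/
lemma exists_digit {L : ℝ → ℝ} (hL : IsLuroth L) {y : ℝ} (hy : y ∈ Ioo (0 : ℝ) 1) :
    ∃ d : ℕ, 2 ≤ d ∧ L y ∈ Ico (0 : ℝ) 1 ∧ y = br d (L y) := by
  have hy0 := hy.1
  have hy1 := hy.2
  have h1 : 1 < 1 / y := by rw [lt_div_iff₀ hy0]; linarith
  have h2 := Nat.le_ceil (1 / y)
  have h3 := Nat.ceil_lt_add_one (by positivity : (0 : ℝ) ≤ 1 / y)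
  set d := ⌈1 / y⌉₊ with hd
  have hd2 : 2 ≤ d := by
    have : (1 : ℝ) < d := lt_of_lt_of_le h1 h2
    have : 1 < d := by exact_mod_cast this
    omega
  have h4 := cast_two_le hd2
  have h5 : 1 / (d : ℝ) ≤ y := by
    rw [div_le_iff₀ (by linarith)]
    rw [div_le_iff₀ hy0] at h2
    linarith
  have h6 : y < 1 / ((d : ℝ) - 1) := by
    rw [lt_div_iff₀ (by linarith)]
    have : (d : ℝ) - 1 < 1 / y := by linarith
    rw [lt_div_iff₀ hy0] at this
    linarith
  have hlen := len_pos hd2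
  have hz : (y - 1 / (d : ℝ)) / len d ∈ Ico (0 : ℝ) 1 := by
    constructor
    · apply div_nonneg (by linarith) hlen.le
    · rw [div_lt_one hlen, len_eq hd2]
      linarith
  have h7 : y = br d ((y - 1 / (d : ℝ)) / len d) := by
    rw [br_eq, mul_div_cancel₀ _ hlen.ne']
    ring
  have h8 : L y = (y - 1 / (d : ℝ)) / len d := by
    conv_lhs => rw [h7]
    exact luroth_br hL hd2 hz
  exact ⟨d, hd2, h8 ▸ hz, by rw [h8]; exact h7⟩

/-! ### Points with given digits -/

/-- The length of the cylinder of rank `n` of a digit sequence. -/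
noncomputable def R (e : ℕ → ℕ) (n : ℕ) : ℝ := ∏ i ∈ Finset.range n, len (e i)

/-- The point with digits `e`. -/
noncomputable def pt (e : ℕ → ℕ) : ℝ := ∑' n, R e n * (1 / (e n : ℝ))

/-- The shifted sequence. -/
def sh (n : ℕ) (e : ℕ → ℕ) : ℕ → ℕ := fun i => e (n + i)

lemma R_pos {e : ℕ → ℕ} (he : ∀ i, 2 ≤ e i) (n : ℕ) : 0 < R e n :=
  Finset.prod_pos fun i _ => len_pos (he i)

lemma R_le {e : ℕ → ℕ} (he : ∀ i, 2 ≤ e i) (n : ℕ) : R e n ≤ (1 / 2) ^ n := by
  unfold R
  calc ∏ i ∈ Finset.range n, len (e i) ≤ ∏ i ∈ Finset.range n, (1 / 2 : ℝ) :=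
        Finset.prod_le_prod (fun i _ => (len_pos (he i)).le) fun i _ => len_le (he i)
    _ = (1 / 2) ^ n := by rw [Finset.prod_const, Finset.card_range]

lemma term_le {e : ℕ → ℕ} (he : ∀ i, 2 ≤ e i) (n : ℕ) :
    R e n * (1 / (e n : ℝ)) ≤ (1 / 2) ^ n * (1 / 2) := by
  have h1 : 1 / (e n : ℝ) ≤ 1 / 2 := one_div_le_one_div_of_le (by norm_num) (cast_two_le (he n))
  have h2 : 0 ≤ 1 / (e n : ℝ) := by positivity
  exact mul_le_mul (R_le he n) h1 h2 (by positivity)

lemma term_nonneg {e : ℕ → ℕ} (he : ∀ i, 2 ≤ e i) (n : ℕ) : 0 ≤ R e n * (1 / (e n : ℝ)) :=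
  mul_nonneg (R_pos he n).le (by positivity)

lemma pt_summable {e : ℕ → ℕ} (he : ∀ i, 2 ≤ e i) : Summable fun n => R e n * (1 / (e n : ℝ)) :=
  Summable.of_nonneg_of_le (term_nonneg he) (term_le he) (summable_geometric_two.mul_right _)

lemma pt_nonneg {e : ℕ → ℕ} (he : ∀ i, 2 ≤ e i) : 0 ≤ pt e := tsum_nonneg (term_nonneg he)

lemma pt_le_one {e : ℕ → ℕ} (he : ∀ i, 2 ≤ e i) : pt e ≤ 1 := by
  have h1 : ∑' n : ℕ, ((1 : ℝ) / 2) ^ n * (1 / 2) = 1 := by
    rw [tsum_mul_right, tsum_geometric_two]; norm_num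
  rw [← h1]
  exact (pt_summable he).tsum_le_tsum (term_le he) (summable_geometric_two.mul_right _)

lemma R_succ (e : ℕ → ℕ) (n : ℕ) : R e (n + 1) = len (e 0) * R (sh 1 e) n := by
  unfold R sh
  rw [Finset.prod_range_succ', mul_comm]
  congr 1
  exact Finset.prod_congr rfl fun i _ => by rw [add_comm]

lemma pt_rec {e : ℕ → ℕ} (he : ∀ i, 2 ≤ e i) : pt e = br (e 0) (pt (sh 1 e)) := by
  unfold pt
  rw [(pt_summable he).tsum_eq_zero_add, br_eq, ← tsum_mul_left]
  congr 1
  · simp [R]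
  · refine tsum_congr fun n => ?_
    rw [R_succ, mul_assoc]
    congr 3
    unfold sh
    rw [add_comm]

/-- Admissible digit sequences. -/
def Good (e : ℕ → ℕ) : Prop := (∀ i, 2 ≤ e i) ∧ ∀ n, ∃ i, n ≤ i ∧ 3 ≤ e i

lemma Good.sh {e : ℕ → ℕ} (he : Good e) (n : ℕ) : Good (sh n e) := by
  refine ⟨fun i => he.1 _, fun m => ?_⟩
  obtain ⟨i, hi, h3⟩ := he.2 (n + m)
  refine ⟨i - n, by omega, ?_⟩
  unfold DimensionOne.sh
  rwa [Nat.add_sub_cancel' (by omega)]

lemma sh_sh (m n : ℕ) (e : ℕ → ℕ) : sh m (sh n e) = sh (n + m) e := by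
  funext i
  unfold sh
  rw [add_assoc]

lemma pt_lt_one : ∀ (k : ℕ) (e : ℕ → ℕ), (∀ i, 2 ≤ e i) → 3 ≤ e k → pt e < 1 := by
  intro k
  induction k with
  | zero =>
    intro e he h3
    rw [pt_rec he, br_eq]
    have h1 := pt_le_one (e := sh 1 e) fun i => he _
    have h2 := len_pos (he 0)
    have h4 := len_eq (he 0)
    have h5 : (3 : ℝ) ≤ e 0 := by exact_mod_cast h3
    have h6 : 1 / ((e 0 : ℝ) - 1) ≤ 1 / 2 := one_div_le_one_div_of_le (by norm_num) (by linarith)
    nlinarith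
  | succ k ih =>
    intro e he h3
    rw [pt_rec he, br_eq]
    have h1 := ih (sh 1 e) (fun i => he _) (by unfold sh; rwa [add_comm])
    have h2 := len_pos (he 0)
    have h4 := len_eq (he 0)
    have h5 := cast_two_le (he 0)
    have h6 : 1 / ((e 0 : ℝ) - 1) ≤ 1 := by
      rw [div_le_one (by linarith)]; linarith
    nlinarith

lemma pt_mem {e : ℕ → ℕ} (he : Good e) : pt e ∈ Ico (0 : ℝ) 1 := by
  obtain ⟨k, _, hk⟩ := he.2 0
  exact ⟨pt_nonneg he.1, pt_lt_one k e he.1 hk⟩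

lemma luroth_pt {L : ℝ → ℝ} (hL : IsLuroth L) {e : ℕ → ℕ} (he : Good e) :
    L (pt e) = pt (sh 1 e) := by
  rw [pt_rec he.1]
  exact luroth_br hL (he.1 0) (pt_mem (he.sh 1))

lemma iterate_pt {L : ℝ → ℝ} (hL : IsLuroth L) {e : ℕ → ℕ} (he : Good e) (n : ℕ) :
    L^[n] (pt e) = pt (sh n e) := by
  induction n with
  | zero =>
    simp only [Function.iterate_zero, id]
    congr 1
    funext i
    unfold sh
    rw [zero_add]
  | succ n ih => rw [Function.iterate_succ_apply', ih, luroth_pt hL (he.sh n), sh_sh]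

lemma pt_bounds {e : ℕ → ℕ} (he : Good e) :
    1 / (e 0 : ℝ) ≤ pt e ∧ pt e < 1 / ((e 0 : ℝ) - 1) := by
  rw [pt_rec he.1]
  exact br_mem (he.1 0) (pt_mem (he.sh 1))

/-- Two sequences with the same first `n` digits. -/
lemma pt_sub {e e' : ℕ → ℕ} (he : ∀ i, 2 ≤ e i) (he' : ∀ i, 2 ≤ e' i) (n : ℕ)
    (h : ∀ i < n, e i = e' i) :
    pt e - pt e' = R e n * (pt (sh n e) - pt (sh n e')) := by
  induction n generalizing e e' with
  | zero =>
    have h0 : ∀ e : ℕ → ℕ, sh 0 e = e := fun e => by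
      funext i; unfold sh; rw [zero_add]
    rw [h0, h0]
    simp [R]
  | succ n ih =>
    rw [pt_rec he, pt_rec he', ← h 0 (by omega), br_sub,
      ih (e := sh 1 e) (e' := sh 1 e') (fun i => he _) (fun i => he' _)
        (fun i hi => h _ (by omega)), sh_sh, sh_sh, R_succ, add_comm 1 n]
    ring

/-- Lower bound for the distance of two points whose first digits differ. -/
lemma pt_gap {e e' : ℕ → ℕ} (he : Good e) (he' : Good e') (h : e' 0 < e 0) :
    1 / (e' 0 : ℝ) - 1 / ((e 0 : ℝ) - 1) + len (e' 0) * (1 / (e' 1 : ℝ)) ≤ pt e' - pt e := by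
  have h1 := (pt_bounds he).2
  have h2 := (pt_bounds (he'.sh 1)).1
  have h3 : pt e' = 1 / (e' 0 : ℝ) + len (e' 0) * pt (sh 1 e') := by rw [pt_rec he'.1, br_eq]
  have h4 := len_pos (he'.1 0)
  have h5 : (sh 1 e') 0 = e' 1 := rfl
  rw [h5] at h2
  rw [h3]
  nlinarith

/-! ### A dimension estimate -/

lemma dim_ge {h : ℝ → ℝ} {C s : ℝ} (hC : 0 ≤ C) (hs : 0 < s)
    (hh : ∀ u ∈ Ico (0 : ℝ) 1, ∀ v ∈ Ico (0 : ℝ) 1, u < v → v - u ≤ C * |h v - h u| ^ s) :
    ENNReal.ofReal s ≤ dimH (h '' Ico 0 1) := by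
  have hh2 : ∀ u ∈ Ico (0 : ℝ) 1, ∀ v ∈ Ico (0 : ℝ) 1, |u - v| ≤ C * |h u - h v| ^ s := by
    intro u hu v hv
    rcases lt_trichotomy u v with h1 | h1 | h1
    · rw [abs_sub_comm, abs_of_pos (sub_pos.2 h1), abs_sub_comm]
      exact hh u hu v hv h1
    · subst h1
      simp only [sub_self, abs_zero]
      exact mul_nonneg hC (Real.rpow_nonneg le_rfl _)
    · rw [abs_of_pos (sub_pos.2 h1)]
      exact hh v hv u hu h1
  have hinj : InjOn h (Ico 0 1) := by
    intro u hu v hv huv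
    have h1 := hh2 u hu v hv
    rw [huv, sub_self, abs_zero, Real.zero_rpow hs.ne', mul_zero] at h1
    have := abs_nonpos_iff.1 h1
    linarith
  let g := Function.invFunOn h (Ico 0 1)
  have hg : ∀ u ∈ Ico (0 : ℝ) 1, g (h u) = u := fun u hu => hinj.leftInvOn_invFunOn hu
  have hH : HolderOnWith (Real.toNNReal C) (Real.toNNReal s) g (h '' Ico 0 1) := by
    intro x hx y hy
    obtain ⟨u, hu, rfl⟩ := hx
    obtain ⟨v, hv, rfl⟩ := hy
    rw [hg u hu, hg v hv, edist_dist, edist_dist, Real.dist_eq, Real.dist_eq]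
    calc ENNReal.ofReal |u - v| ≤ ENNReal.ofReal (C * |h u - h v| ^ s) :=
          ENNReal.ofReal_le_ofReal (hh2 u hu v hv)
      _ = _ := by
          rw [ENNReal.ofReal_mul hC, ← ENNReal.ofReal_rpow_of_nonneg (abs_nonneg _) hs.le,
            Real.coe_toNNReal s hs.le]
          rfl
  have h1 := hH.dimH_image_le (Real.toNNReal_pos.2 hs)
  have h2 : g '' (h '' Ico 0 1) = Ico 0 1 := by
    rw [image_image]
    ext u
    constructor
    · rintro ⟨v, hv, rfl⟩
      show g (h v) ∈ Ico (0 : ℝ) 1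
      rwa [hg v hv]
    · intro hu
      exact ⟨u, hu, hg u hu⟩
  rw [h2, Real.dimH_of_nonempty_interior (by rw [interior_Ico]; exact ⟨1 / 2, by norm_num⟩)] at h1
  have h3 : ((Real.toNNReal s : ℝ≥0) : ℝ≥0∞) = ENNReal.ofReal s := rfl
  rw [h3, ENNReal.le_div_iff_mul_le (Or.inl (by simpa using hs)) (Or.inl ENNReal.ofReal_ne_top),
    Module.finrank_self, Nat.cast_one, one_mul] at h1
  exact h1

/-! ### Coding schemes -/

/-- A scheme which produces digit sequences from numbers of `[0,1)`. -/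
structure Scheme where
  st : ℕ → ℝ → ℝ
  dg : ℕ → ℝ → ℕ
  p : ℕ → ℕ → ℝ
  st_mem : ∀ n, ∀ u ∈ Ico (0 : ℝ) 1, st n u ∈ Ico (0 : ℝ) 1
  dg_two : ∀ n, ∀ u ∈ Ico (0 : ℝ) 1, 2 ≤ dg n u
  dg_three : ∀ n, ∀ u ∈ Ico (0 : ℝ) 1, IsSquare n → 3 ≤ dg n u
  p_nonneg : ∀ n d, 0 ≤ p n d
  same : ∀ n, ∀ u ∈ Ico (0 : ℝ) 1, ∀ v ∈ Ico (0 : ℝ) 1, dg n u = dg n v →
    v - u = p n (dg n u) * (st n v - st n u)
  order : ∀ n, ∀ u ∈ Ico (0 : ℝ) 1, ∀ v ∈ Ico (0 : ℝ) 1, u < v → dg n v ≤ dg n u

namespace Scheme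

variable (c : Scheme)

/-- the orbit of `u` -/
noncomputable def U (u : ℝ) : ℕ → ℝ
  | 0 => u
  | n + 1 => c.st n (U u n)

/-- the digits produced by `u` -/
noncomputable def code (u : ℝ) (n : ℕ) : ℕ := c.dg n (c.U u n)

/-- the weight of the cylinders -/
noncomputable def P (u : ℝ) (n : ℕ) : ℝ := ∏ i ∈ Finset.range n, c.p i (c.code u i)

/-- the point produced by `u` -/
noncomputable def h (u : ℝ) : ℝ := pt (c.code u)

lemma U_mem {u : ℝ} (hu : u ∈ Ico (0 : ℝ) 1) (n : ℕ) : c.U u n ∈ Ico (0 : ℝ) 1 := by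
  induction n with
  | zero => exact hu
  | succ n ih => exact c.st_mem n _ ih

lemma code_good {u : ℝ} (hu : u ∈ Ico (0 : ℝ) 1) : Good (c.code u) := by
  refine ⟨fun i => c.dg_two i _ (c.U_mem hu i), fun n => ⟨n * n, ?_, ?_⟩⟩
  · nlinarith [Nat.zero_le n]
  · exact c.dg_three _ _ (c.U_mem hu _) ⟨n, rfl⟩

lemma agree {u v : ℝ} (hu : u ∈ Ico (0 : ℝ) 1) (hv : v ∈ Ico (0 : ℝ) 1) (n : ℕ)
    (h : ∀ i < n, c.code u i = c.code v i) : v - u = c.P u n * (c.U v n - c.U u n) := by
  induction n with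
  | zero => simp [P, U]
  | succ n ih =>
    rw [ih fun i hi => h i (by omega)]
    unfold P
    rw [Finset.prod_range_succ, mul_assoc]
    congr 1
    exact c.same n _ (c.U_mem hu n) _ (c.U_mem hv n) (h n (by omega))

lemma P_nonneg (u : ℝ) (n : ℕ) : 0 ≤ c.P u n := Finset.prod_nonneg fun i _ => c.p_nonneg _ _

/-- The dimension estimate for a scheme. -/
lemma dim {C s : ℝ} (hC : 0 ≤ C) (hs : 0 < s)
    (hP : ∀ u ∈ Ico (0 : ℝ) 1, Tendsto (c.P u) atTop (𝓝 0))
    (hB : ∀ u ∈ Ico (0 : ℝ) 1, ∀ v ∈ Ico (0 : ℝ) 1, ∀ n,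
      c.code v n < c.code u n → (∀ i < n, c.code u i = c.code v i) →
      c.P u n * (c.U v n - c.U u n) ≤
        C * (R (c.code u) n * (1 / (c.code v n : ℝ) - 1 / ((c.code u n : ℝ) - 1) +
          len (c.code v n) * (1 / (c.code v (n + 1) : ℝ)))) ^ s) :
    ENNReal.ofReal s ≤ dimH (c.h '' Ico 0 1) := by
  refine dim_ge hC hs fun u hu v hv huv => ?_
  have hex : ∃ n, c.code u n ≠ c.code v n := by
    by_contra hcon
    push Not at hcon
    have h1 : ∀ n, v - u ≤ c.P u n := by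
      intro n
      have h2 := c.agree hu hv n fun i _ => hcon i
      have h3 := c.P_nonneg u n
      have h4 := c.U_mem hu n
      have h5 := c.U_mem hv n
      rw [h2]
      nlinarith [h4.1, h5.2]
    have h2 := ge_of_tendsto' (hP u hu) h1
    linarith
  classical
  let n := Nat.find hex
  have hn : c.code u n ≠ c.code v n := Nat.find_spec hex
  have hlt : ∀ i < n, c.code u i = c.code v i := fun i hi => by
    have := Nat.find_min hex hi
    push Not at this
    exact this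
  have h1 := c.agree hu hv n hlt
  have h2 : c.U u n < c.U v n := by
    have h3 := c.P_nonneg u n
    by_contra h4
    rw [not_lt] at h4
    nlinarith
  have h3 : c.code v n < c.code u n :=
    lt_of_le_of_ne (c.order n _ (c.U_mem hu n) _ (c.U_mem hv n) h2) (Ne.symm hn)
  have gu := c.code_good hu
  have gv := c.code_good hv
  have h4 := pt_gap (gu.sh n) (gv.sh n) (by exact h3)
  have h5 := pt_sub gv.1 gu.1 n fun i hi => (hlt i hi).symm
  have hR : R (c.code v) n = R (c.code u) n := by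
    unfold R
    refine Finset.prod_congr rfl fun i hi => ?_
    rw [hlt i (Finset.mem_range.1 hi)]
  have hRpos := R_pos gu.1 n
  have h6 : R (c.code u) n * (1 / (c.code v n : ℝ) - 1 / ((c.code u n : ℝ) - 1) +
          len (c.code v n) * (1 / (c.code v (n + 1) : ℝ))) ≤ |c.h v - c.h u| := by
    unfold h
    rw [h5, hR, abs_mul, abs_of_pos hRpos]
    exact mul_le_mul_of_nonneg_left (h4.trans (le_abs_self _)) hRpos.le
  have h7 : 0 ≤ 1 / (c.code v n : ℝ) - 1 / ((c.code u n : ℝ) - 1) := by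
    rw [sub_nonneg]
    have h8 := cast_two_le (gv.1 n)
    have h9 : ((c.code v n : ℝ)) + 1 ≤ c.code u n := by exact_mod_cast h3
    apply one_div_le_one_div_of_le (by linarith) (by linarith)
  have h8 : 0 ≤ len (c.code v n) * (1 / (c.code v (n + 1) : ℝ)) :=
    mul_nonneg (len_pos (gv.1 n)).le (by positivity)
  rw [h1]
  refine (hB u hu v hv n h3 hlt).trans ?_
  refine mul_le_mul_of_nonneg_left ?_ hC
  exact Real.rpow_le_rpow (mul_nonneg hRpos.le (by linarith)) h6 hs.le

end Scheme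

/-- Comparison of the weights with the lengths. -/
lemma P_le (c : Scheme) {u s : ℝ} (hu : u ∈ Ico (0 : ℝ) 1) (q : ℕ → ℝ)
    (hq : ∀ i, c.p i (c.code u i) ≤ len (c.code u i) ^ s * Real.exp (q i)) (n : ℕ) :
    c.P u n ≤ R (c.code u) n ^ s * Real.exp (∑ i ∈ Finset.range n, q i) := by
  unfold Scheme.P R
  rw [Real.exp_sum, ← Real.finsetProd_rpow _ _ (fun i _ => (len_pos ((c.code_good hu).1 i)).le),
    ← Finset.prod_mul_distrib]
  exact Finset.prod_le_prod (fun i _ => c.p_nonneg _ _) fun i _ => hq i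

lemma poly_bound {a B x : ℝ} (ha : 0 < a) (hB : 0 ≤ B) (hx : 0 ≤ x) (m : ℕ) :
    -a * x ^ (m + 1) + B * x ^ m ≤ B * (B / a) ^ m := by
  have h1 : -a * x ^ (m + 1) + B * x ^ m = x ^ m * (B - a * x) := by ring
  rw [h1]
  rcases le_total x (B / a) with h | h
  · calc x ^ m * (B - a * x) ≤ x ^ m * B := by
          apply mul_le_mul_of_nonneg_left _ (by positivity)
          nlinarith
      _ ≤ (B / a) ^ m * B := by
          apply mul_le_mul_of_nonneg_right _ hB
          exact pow_le_pow_left₀ hx h m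
      _ = B * (B / a) ^ m := mul_comm _ _
  · have h2 : B - a * x ≤ 0 := by
      rw [div_le_iff₀ ha] at h
      linarith
    have h3 : x ^ m * (B - a * x) ≤ 0 := mul_nonpos_of_nonneg_of_nonpos (by positivity) h2
    have h4 : 0 ≤ B * (B / a) ^ m := by positivity
    linarith

lemma squares_card (n : ℕ) : ((Finset.range n).filter fun i => IsSquare i).card ≤ Nat.sqrt n + 1 := by
  have h1 : ((Finset.range n).filter fun i => IsSquare i) ⊆
      (Finset.range (Nat.sqrt n + 1)).image fun k => k * k := by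
    intro i hi
    rw [Finset.mem_filter, Finset.mem_range] at hi
    obtain ⟨h2, k, rfl⟩ := hi
    rw [Finset.mem_image]
    refine ⟨k, ?_, rfl⟩
    rw [Finset.mem_range, Nat.lt_succ_iff, Nat.le_sqrt]
    exact h2.le
  exact (Finset.card_le_card h1).trans (Finset.card_image_le.trans (by rw [Finset.card_range]))

lemma bound1 {η M : ℝ} (hη : 0 < η) (hM : 1 ≤ M) : ∃ C0 : ℝ, ∀ n : ℕ,
    ∑ i ∈ Finset.range n, (if IsSquare i then 2 * Real.log ((i : ℝ) + 3) else -η) +
      Real.log (M ^ 2 * (M + n + 4)) ≤ C0 := by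
  refine ⟨(2 * η + 20) * ((2 * η + 20) / η) ^ 3 + 3 * η + Real.log (M ^ 2) + Real.log (M + 2),
    fun n => ?_⟩
  have e1 : ∑ i ∈ Finset.range n, (if IsSquare i then 2 * Real.log ((i : ℝ) + 3) else -η) =
      ∑ i ∈ (Finset.range n).filter (fun i => IsSquare i), (η + 2 * Real.log ((i : ℝ) + 3))
        + n * (-η) := by
    rw [Finset.sum_filter]
    have : (n : ℝ) * (-η) = ∑ i ∈ Finset.range n, (-η) := by
      rw [Finset.sum_const, Finset.card_range, nsmul_eq_mul]
    rw [this, ← Finset.sum_add_distrib]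
    refine Finset.sum_congr rfl fun i _ => ?_
    split_ifs <;> ring
  have hn0 : (0 : ℝ) ≤ n := by positivity
  have e2 : ∑ i ∈ (Finset.range n).filter (fun i => IsSquare i), (η + 2 * Real.log ((i : ℝ) + 3))
      ≤ ((Nat.sqrt n : ℝ) + 1) * (η + 2 * Real.log ((n : ℝ) + 3)) := by
    have h1 : 0 ≤ η + 2 * Real.log ((n : ℝ) + 3) := by
      have := Real.log_nonneg (show (1 : ℝ) ≤ (n : ℝ) + 3 by linarith)
      linarith
    refine (Finset.sum_le_card_nsmul _ _ (η + 2 * Real.log ((n : ℝ) + 3)) ?_).trans ?_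
    · intro i hi
      rw [Finset.mem_filter, Finset.mem_range] at hi
      have h2 : (i : ℝ) ≤ n := by exact_mod_cast hi.1.le
      have h3 := Real.log_le_log (show (0 : ℝ) < (i : ℝ) + 3 by positivity)
        (show (i : ℝ) + 3 ≤ n + 3 by linarith)
      linarith
    · rw [nsmul_eq_mul]
      apply mul_le_mul_of_nonneg_right _ h1
      exact_mod_cast squares_card n
  set w : ℝ := Real.sqrt (Real.sqrt ((n : ℝ) + 3)) with hw
  have hw0 : 0 ≤ w := Real.sqrt_nonneg _
  have hw2 : w ^ 2 = Real.sqrt ((n : ℝ) + 3) := Real.sq_sqrt (Real.sqrt_nonneg _)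
  have hw4 : w ^ 4 = (n : ℝ) + 3 := by
    have : w ^ 4 = (w ^ 2) ^ 2 := by ring
    rw [this, hw2, Real.sq_sqrt (by positivity)]
  have hw1 : 1 ≤ w := by
    by_contra h
    rw [not_le] at h
    have : w ^ 4 < 1 := pow_lt_one₀ hw0 h (by norm_num)
    linarith
  have hsq : (Nat.sqrt n : ℝ) ≤ w ^ 2 := by
    rw [hw2]
    apply Real.le_sqrt_of_sq_le
    have : Nat.sqrt n ^ 2 ≤ n := Nat.sqrt_le' n
    have : (Nat.sqrt n : ℝ) ^ 2 ≤ n := by exact_mod_cast this
    linarith
  have hlog : Real.log ((n : ℝ) + 3) ≤ 4 * w := by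
    rw [← hw4, Real.log_pow]
    have := Real.log_le_sub_one_of_pos (show 0 < w by linarith)
    push_cast
    linarith
  have hlog0 : 0 ≤ Real.log ((n : ℝ) + 3) := Real.log_nonneg (by linarith)
  have e3 : Real.log (M ^ 2 * (M + n + 4)) ≤ Real.log (M ^ 2) + Real.log (M + 2) + 4 * w := by
    rw [Real.log_mul (by positivity) (by positivity)]
    have h1 : Real.log (M + n + 4) ≤ Real.log ((M + 2) * (n + 3)) := by
      apply Real.log_le_log (by positivity)
      nlinarith
    rw [Real.log_mul (by positivity) (by positivity)] at h1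
    linarith
  have e4 : ((Nat.sqrt n : ℝ) + 1) * (η + 2 * Real.log ((n : ℝ) + 3)) ≤
      (2 * w ^ 2) * (η + 8 * w) := by
    apply mul_le_mul _ _ _ (by positivity)
    · nlinarith
    · linarith
    · linarith
  have h5 := poly_bound hη (show (0 : ℝ) ≤ 2 * η + 20 by linarith) hw0 3
  have h6 : w ^ 2 ≤ w ^ 3 := pow_le_pow_right₀ hw1 (by norm_num)
  have h7 : w ≤ w ^ 3 := by
    calc w = w ^ 1 := (pow_one w).symm
      _ ≤ w ^ 3 := pow_le_pow_right₀ hw1 (by norm_num)
  have h8 : (n : ℝ) = w ^ 4 - 3 := by linarith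
  rw [e1]
  have h9 : (n : ℝ) * (-η) = -η * w ^ 4 + 3 * η := by rw [h8]; ring
  rw [h9]
  norm_num at h5
  nlinarith

lemma squares_sum (n : ℕ) : ((Nat.sqrt n : ℕ) : ℝ) ^ 3 / 6 ≤
    ∑ i ∈ (Finset.range n).filter (fun i => IsSquare i), ((i : ℝ) + 2) := by
  have h1 : ∀ K : ℕ, (K : ℝ) ^ 3 / 6 ≤ ∑ k ∈ Finset.range K, ((k : ℝ) * k + 2) := by
    intro K
    induction K with
    | zero => simp
    | succ K ih =>
      rw [Finset.sum_range_succ]
      push_cast
      nlinarith [sq_nonneg ((K : ℝ) - 1)]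
  refine (h1 _).trans ?_
  have h2 : (Finset.range (Nat.sqrt n)).image (fun k => k * k) ⊆
      (Finset.range n).filter fun i => IsSquare i := by
    intro i hi
    rw [Finset.mem_image] at hi
    obtain ⟨k, hk, rfl⟩ := hi
    rw [Finset.mem_range] at hk
    rw [Finset.mem_filter, Finset.mem_range]
    refine ⟨?_, k, rfl⟩
    calc k * k < Nat.sqrt n * Nat.sqrt n := Nat.mul_self_lt_mul_self hk
      _ ≤ n := Nat.sqrt_le n
  have h3 : ∑ k ∈ Finset.range (Nat.sqrt n), ((k : ℝ) * k + 2) =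
      ∑ i ∈ (Finset.range (Nat.sqrt n)).image (fun k : ℕ => k * k), (((i : ℕ) : ℝ) + 2) := by
    rw [Finset.sum_image]
    · refine Finset.sum_congr rfl fun k _ => ?_
      push_cast
      ring
    · intro a _ b _ hab
      exact Nat.mul_self_inj.1 hab
  rw [h3]
  exact Finset.sum_le_sum_of_subset_of_nonneg h2 fun i _ _ => by positivity

/-- The sizes of the large digits. -/
def T (n : ℕ) : ℕ := 2 ^ (n + 2)

lemma bound2 {s M : ℝ} (hs : 0 < s) (hs2 : s < 1 / 2) (hM : 2 ≤ M) : ∃ C0 : ℝ, ∀ n : ℕ,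
    ∑ i ∈ Finset.range n, (if IsSquare i then
      s * Real.log 4 - (1 - 2 * s) * (((i : ℝ) + 2) * Real.log 2) else 2 * s * Real.log M) +
      Real.log (8 * T n * (M + 2 * T (n + 1))) ≤ C0 := by
  set a : ℝ := (1 - 2 * s) * Real.log 2 / 6 with ha
  have hl2 : 0 < Real.log 2 := Real.log_pos (by norm_num)
  have hapos : 0 < a := by
    rw [ha]
    have : 0 < 1 - 2 * s := by linarith
    positivity
  have hlM : 0 ≤ Real.log M := Real.log_nonneg (by linarith)
  have hl4 : Real.log 4 = 2 * Real.log 2 := by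
    rw [show (4 : ℝ) = 2 ^ 2 by norm_num, Real.log_pow]; norm_num
  set B : ℝ := 2 * Real.log M + 4 * Real.log 2 with hB
  have hB0 : 0 ≤ B := by positivity
  refine ⟨(2 * B) * (2 * B / a) ^ 2 + 2 * B + Real.log M + 9 * Real.log 2, fun n => ?_⟩
  have hn0 : (0 : ℝ) ≤ n := by positivity
  have e1 : ∑ i ∈ Finset.range n, (if IsSquare i then
      s * Real.log 4 - (1 - 2 * s) * (((i : ℝ) + 2) * Real.log 2) else 2 * s * Real.log M) ≤
      n * (2 * Real.log M + Real.log 4) - (1 - 2 * s) * Real.log 2 *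
        ∑ i ∈ (Finset.range n).filter (fun i => IsSquare i), ((i : ℝ) + 2) := by
    rw [Finset.sum_filter, Finset.mul_sum]
    have : (n : ℝ) * (2 * Real.log M + Real.log 4) =
        ∑ i ∈ Finset.range n, (2 * Real.log M + Real.log 4) := by
      rw [Finset.sum_const, Finset.card_range, nsmul_eq_mul]
    rw [this, ← Finset.sum_sub_distrib]
    refine Finset.sum_le_sum fun i _ => ?_
    split_ifs
    · nlinarith
    · nlinarith
  have e2 : Real.log (8 * T n * (M + 2 * T (n + 1))) ≤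
      Real.log M + (2 * n + 9) * Real.log 2 := by
    have h1 : Real.log M + (2 * n + 9) * Real.log 2 = Real.log (M * 2 ^ (2 * n + 9)) := by
      rw [Real.log_mul (by positivity) (by positivity), Real.log_pow]
      push_cast
      ring
    rw [h1]
    have hT : (0 : ℝ) < T n := by unfold T; positivity
    apply Real.log_le_log (by positivity)
    unfold T
    push_cast
    have h2 : (1 : ℝ) ≤ 2 ^ n := one_le_pow₀ (by norm_num)
    have h3 : (2 : ℝ) ^ (2 * n + 9) = 512 * (2 ^ n * 2 ^ n) := by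
      rw [pow_add, two_mul, pow_add]; norm_num; ring
    have h4 : (2 : ℝ) ^ (n + 2) = 4 * 2 ^ n := by rw [pow_add]; norm_num; ring
    have h5 : (2 : ℝ) ^ (n + 1 + 2) = 8 * 2 ^ n := by rw [add_assoc, pow_add]; norm_num; ring
    rw [h3, h4, h5]
    have h6 : M + 16 * 2 ^ n ≤ M * (16 * 2 ^ n) := by nlinarith
    calc 8 * (4 * 2 ^ n) * (M + 2 * (8 * 2 ^ n)) = 32 * 2 ^ n * (M + 16 * 2 ^ n) := by ring
      _ ≤ 32 * 2 ^ n * (M * (16 * 2 ^ n)) := by
          apply mul_le_mul_of_nonneg_left h6 (by positivity)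
      _ = M * (512 * (2 ^ n * 2 ^ n)) := by ring
  have e3 := squares_sum n
  set K : ℝ := ((Nat.sqrt n : ℕ) : ℝ) with hK
  have hK0 : 0 ≤ K := by positivity
  have hKn : (n : ℝ) ≤ 2 * K ^ 2 + 2 := by
    have h1 : n < (Nat.sqrt n + 1) ^ 2 := Nat.lt_succ_sqrt' n
    have h2 : (n : ℝ) < (K + 1) ^ 2 := by rw [hK]; exact_mod_cast h1
    nlinarith [sq_nonneg (K - 1)]
  have h5 := poly_bound hapos (show (0 : ℝ) ≤ 2 * B by linarith) hK0 2
  norm_num at h5
  have e4 : (1 - 2 * s) * Real.log 2 * (K ^ 3 / 6) ≤ (1 - 2 * s) * Real.log 2 *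
      ∑ i ∈ (Finset.range n).filter (fun i => IsSquare i), ((i : ℝ) + 2) := by
    apply mul_le_mul_of_nonneg_left e3
    have : 0 < 1 - 2 * s := by linarith
    positivity
  have e5 : (1 - 2 * s) * Real.log 2 * (K ^ 3 / 6) = a * K ^ 3 := by rw [ha]; ring
  have e6 : (n : ℝ) * (2 * Real.log M + Real.log 4) + (2 * n + 9) * Real.log 2 =
      n * B + 9 * Real.log 2 := by rw [hB, hl4]; ring
  have e7 : (n : ℝ) * B ≤ (2 * K ^ 2 + 2) * B := mul_le_mul_of_nonneg_right hKn hB0
  nlinarith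

/-! ### The first scheme: points with sparse large digits -/

lemma digit_spec {x : ℝ} (hx : x ∈ Ioo (0 : ℝ) 1) : 2 ≤ ⌈1 / x⌉₊ ∧
    (x - 1 / (⌈1 / x⌉₊ : ℝ)) / len ⌈1 / x⌉₊ ∈ Ico (0 : ℝ) 1 := by
  have hy0 := hx.1
  have hy1 := hx.2
  have h1 : 1 < 1 / x := by rw [lt_div_iff₀ hy0]; linarith
  have h2 := Nat.le_ceil (1 / x)
  have h3 := Nat.ceil_lt_add_one (by positivity : (0 : ℝ) ≤ 1 / x)
  set d := ⌈1 / x⌉₊ with hd
  have hd2 : 2 ≤ d := by
    have : (1 : ℝ) < d := lt_of_lt_of_le h1 h2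
    have : 1 < d := by exact_mod_cast this
    omega
  have h4 := cast_two_le hd2
  have h5 : 1 / (d : ℝ) ≤ x := by
    rw [div_le_iff₀ (by linarith)]
    rw [div_le_iff₀ hy0] at h2
    linarith
  have h6 : x < 1 / ((d : ℝ) - 1) := by
    rw [lt_div_iff₀ (by linarith)]
    have : (d : ℝ) - 1 < 1 / x := by linarith
    rw [lt_div_iff₀ hy0] at this
    linarith
  have hlen := len_pos hd2
  refine ⟨hd2, div_nonneg (by linarith) hlen.le, ?_⟩
  rw [div_lt_one hlen, len_eq hd2]
  linarith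

/-- the rescaled point of `[1/M, 1)` -/
noncomputable def rs (M : ℕ) (u : ℝ) : ℝ := 1 / (M : ℝ) + (1 - 1 / (M : ℝ)) * u

lemma rs_mem {M : ℕ} (hM : 2 ≤ M) {u : ℝ} (hu : u ∈ Ico (0 : ℝ) 1) :
    1 / (M : ℝ) ≤ rs M u ∧ rs M u < 1 := by
  have h1 := cast_two_le hM
  have h2 : 1 / (M : ℝ) ≤ 1 / 2 := one_div_le_one_div_of_le (by norm_num) h1
  have h3 : 0 < 1 / (M : ℝ) := by positivity
  unfold rs
  constructor
  · nlinarith [hu.1]
  · nlinarith [hu.2]

lemma rs_mem' {M : ℕ} (hM : 2 ≤ M) {u : ℝ} (hu : u ∈ Ico (0 : ℝ) 1) :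
    rs M u ∈ Ioo (0 : ℝ) 1 := by
  have h1 := cast_two_le hM
  have h3 : 0 < 1 / (M : ℝ) := by positivity
  exact ⟨lt_of_lt_of_le h3 (rs_mem hM hu).1, (rs_mem hM hu).2⟩

open Classical in
/-- The scheme with free digits in `{2,…,M}` off the squares and the digit `n + 3` at a
square `n`. -/
noncomputable def S1 (M : ℕ) (hM : 2 ≤ M) : Scheme where
  st := fun n u => if IsSquare n then u else
    (rs M u - 1 / (⌈1 / rs M u⌉₊ : ℝ)) / len ⌈1 / rs M u⌉₊
  dg := fun n u => if IsSquare n then n + 3 else ⌈1 / rs M u⌉₊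
  p := fun n d => if IsSquare n then 1 else if 2 ≤ d then (M / (M - 1)) * len d else 0
  st_mem := fun n u hu => by
    split_ifs
    · exact hu
    · exact (digit_spec (rs_mem' hM hu)).2
  dg_two := fun n u hu => by
    split_ifs
    · omega
    · exact (digit_spec (rs_mem' hM hu)).1
  dg_three := fun n u hu hn => by
    rw [if_pos hn]; omega
  p_nonneg := fun n d => by
    have h1 := cast_two_le hM
    split_ifs with h2 h3
    · norm_num
    · exact mul_nonneg (div_nonneg (by linarith) (by linarith)) (len_pos h3).le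
    · exact le_rfl
  same := fun n u hu v hv h => by
    split_ifs at h ⊢ with h1 h2
    · ring
    · have h3 := len_pos h2
      have h4 := cast_two_le hM
      rw [← h]
      have h5 : (M : ℝ) - 1 ≠ 0 := by linarith
      have h6 : (M : ℝ) ≠ 0 := by linarith
      have h7 : rs M v - rs M u = (1 - 1 / (M : ℝ)) * (v - u) := by unfold rs; ring
      have h8 : (M : ℝ) / (M - 1) * (1 - 1 / (M : ℝ)) = 1 := by field_simp
      have h9 : (rs M v - 1 / (⌈1 / rs M u⌉₊ : ℝ)) / len ⌈1 / rs M u⌉₊ -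
          (rs M u - 1 / (⌈1 / rs M u⌉₊ : ℝ)) / len ⌈1 / rs M u⌉₊ =
          (rs M v - rs M u) / len ⌈1 / rs M u⌉₊ := by ring
      rw [h9, h7, mul_assoc, mul_div_cancel₀ _ h3.ne', ← mul_assoc, h8, one_mul]
    · exact absurd (digit_spec (rs_mem' hM hu)).1 h2
  order := fun n u hu v hv h => by
    split_ifs
    · exact le_rfl
    · have h1 : rs M u ≤ rs M v := by
        have h4 := cast_two_le hM
        have h5 : 1 / (M : ℝ) ≤ 1 / 2 := one_div_le_one_div_of_le (by norm_num) h4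
        unfold rs
        nlinarith
      exact Nat.ceil_mono (one_div_le_one_div_of_le (rs_mem' hM hu).1 h1)

lemma S1_square {M : ℕ} (hM : 2 ≤ M) (u : ℝ) {n : ℕ} (hn : IsSquare n) :
    (S1 M hM).code u n = n + 3 := by
  unfold Scheme.code S1
  simp only
  rw [if_pos hn]

lemma S1_le {M : ℕ} (hM : 2 ≤ M) {u : ℝ} (hu : u ∈ Ico (0 : ℝ) 1) {n : ℕ} (hn : ¬ IsSquare n) :
    (S1 M hM).code u n ≤ M := by
  have h1 : (S1 M hM).code u n = ⌈1 / rs M ((S1 M hM).U u n)⌉₊ := by
    unfold Scheme.code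
    conv_lhs => unfold S1
    simp only
    rw [if_neg hn]
    rfl
  rw [h1, Nat.ceil_le]
  have h2 := (rs_mem hM ((S1 M hM).U_mem hu n)).1
  have h3 := (rs_mem' hM ((S1 M hM).U_mem hu n)).1
  have h4 := cast_two_le hM
  rw [div_le_iff₀ h3]
  rw [div_le_iff₀ (by linarith)] at h2
  linarith

lemma len_anti {d d' : ℕ} (hd : 2 ≤ d) (h : d ≤ d') : len d' ≤ len d := by
  unfold len
  have h1 := cast_two_le hd
  have h2 : (d : ℝ) ≤ d' := by exact_mod_cast h
  apply one_div_le_one_div_of_le (by nlinarith)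
  nlinarith

/-- Points with free digits have large dimension. -/
lemma S1_dim {s : ℝ} (hs : 0 < s) (hs1 : s < 1) : ∃ (M : ℕ) (hM : 2 ≤ M),
    ENNReal.ofReal s ≤ dimH ((S1 M hM).h '' Ico 0 1) := by
  -- choice of `M`
  have hlim : Tendsto (fun M : ℕ => Real.log ((M : ℝ) / (M - 1))) atTop (𝓝 0) := by
    have h1 : Tendsto (fun M : ℕ => (M : ℝ) / (M - 1)) atTop (𝓝 1) := by
      have h2 : Tendsto (fun M : ℕ => 1 + 1 / ((M : ℝ) - 1)) atTop (𝓝 (1 + 0)) := by
        refine tendsto_const_nhds.add ?_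
        refine Tendsto.div_atTop tendsto_const_nhds ?_
        exact tendsto_atTop_add_const_right _ _ tendsto_natCast_atTop_atTop
      rw [add_zero] at h2
      refine h2.congr' ?_
      filter_upwards [eventually_ge_atTop 2] with M hM
      have := cast_two_le hM
      have h3 : (M : ℝ) - 1 ≠ 0 := by linarith
      field_simp
      ring
    have h3 := (Real.continuousAt_log (one_ne_zero)).tendsto.comp h1
    rw [Real.log_one] at h3
    exact h3
  have hl2 : 0 < Real.log 2 := Real.log_pos (by norm_num)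
  have hpos : 0 < (1 - s) * Real.log 2 := mul_pos (by linarith) hl2
  obtain ⟨M, hMlog, hM⟩ := ((hlim.eventually (gt_mem_nhds hpos)).and
    (eventually_ge_atTop 2)).exists
  refine ⟨M, hM, ?_⟩
  have hMc := cast_two_le hM
  set η : ℝ := (1 - s) * Real.log 2 - Real.log ((M : ℝ) / (M - 1)) with hη
  have hηpos : 0 < η := by rw [hη]; linarith
  obtain ⟨C0, hC0⟩ := bound1 hηpos (show (1 : ℝ) ≤ M by linarith)
  set W : ℕ → ℝ := fun n => (M : ℝ) ^ 2 * (M + n + 4) with hW
  have hW1 : ∀ n, 1 ≤ W n := fun n => by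
    rw [hW]
    have : (0 : ℝ) ≤ n := by positivity
    nlinarith [sq_nonneg ((M : ℝ) - 1)]
  -- the weights
  have hq : ∀ u ∈ Ico (0 : ℝ) 1, ∀ i, (S1 M hM).p i ((S1 M hM).code u i) ≤
      len ((S1 M hM).code u i) ^ s *
        Real.exp (if IsSquare i then 2 * Real.log ((i : ℝ) + 3) else -η) := by
    intro u hu i
    have hg := (S1 M hM).code_good hu
    have hi0 : (0 : ℝ) ≤ i := by positivity
    by_cases hi : IsSquare i
    · rw [if_pos hi, S1_square hM u hi]
      have h1 : (S1 M hM).p i (i + 3) = 1 := by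
        unfold S1
        simp only
        rw [if_pos hi]
      rw [h1]
      have h2 : (((i : ℝ) + 3) ^ 2)⁻¹ ≤ len (i + 3) := by
        unfold len
        push_cast
        rw [one_div]
        apply inv_anti₀ (by nlinarith)
        nlinarith
      have h3 : (((i : ℝ) + 3) ^ 2)⁻¹ ≤ len (i + 3) ^ s := by
        have h4 := len_pos (show 2 ≤ i + 3 by omega)
        have h5 := len_le (show 2 ≤ i + 3 by omega)
        calc (((i : ℝ) + 3) ^ 2)⁻¹ ≤ len (i + 3) := h2
          _ = len (i + 3) ^ (1 : ℝ) := (Real.rpow_one _).symm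
          _ ≤ len (i + 3) ^ s := Real.rpow_le_rpow_of_exponent_ge h4 (by linarith) hs1.le
      have h4 : Real.exp (2 * Real.log ((i : ℝ) + 3)) = ((i : ℝ) + 3) ^ 2 := by
        rw [two_mul, Real.exp_add, Real.exp_log (by positivity), sq]
      rw [h4]
      calc (1 : ℝ) = (((i : ℝ) + 3) ^ 2)⁻¹ * ((i : ℝ) + 3) ^ 2 := by
            rw [inv_mul_cancel₀ (by positivity)]
        _ ≤ len (i + 3) ^ s * ((i : ℝ) + 3) ^ 2 :=
            mul_le_mul_of_nonneg_right h3 (by positivity)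
    · rw [if_neg hi]
      set d := (S1 M hM).code u i with hd
      have h1 : (S1 M hM).p i d = (M / (M - 1)) * len d := by
        unfold S1
        simp only
        rw [if_neg hi, if_pos (hg.1 i)]
      have h2 := len_pos (hg.1 i)
      have h3 := len_le (hg.1 i)
      rw [← hd] at h2 h3
      have h4 : (M : ℝ) / (M - 1) = Real.exp (Real.log ((M : ℝ) / (M - 1))) := by
        rw [Real.exp_log]
        exact div_pos (by linarith) (by linarith)
      have h5 : len d = len d ^ s * len d ^ (1 - s) := by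
        rw [← Real.rpow_add h2]
        simp
      have h6 : len d ^ (1 - s) ≤ Real.exp (-((1 - s) * Real.log 2)) := by
        calc len d ^ (1 - s) ≤ (1 / 2) ^ (1 - s) := Real.rpow_le_rpow h2.le h3 (by linarith)
          _ = Real.exp (-((1 - s) * Real.log 2)) := by
            rw [Real.rpow_def_of_pos (by norm_num)]
            congr 1
            rw [one_div, Real.log_inv]
            ring
      have h7 : Real.exp (-η) = Real.exp (Real.log ((M : ℝ) / (M - 1))) *
          Real.exp (-((1 - s) * Real.log 2)) := by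
        rw [← Real.exp_add]
        congr 1
        rw [hη]
        ring
      rw [h1, h7, ← h4]
      have h8 : 0 < (M : ℝ) / (M - 1) := div_pos (by linarith) (by linarith)
      have h9 : 0 ≤ len d ^ s := Real.rpow_nonneg h2.le _
      calc (M : ℝ) / (M - 1) * len d = len d ^ s * ((M : ℝ) / (M - 1) * len d ^ (1 - s)) := by
            conv_lhs => rw [h5]
            ring
        _ ≤ len d ^ s * ((M : ℝ) / (M - 1) * Real.exp (-((1 - s) * Real.log 2))) :=
            mul_le_mul_of_nonneg_left (mul_le_mul_of_nonneg_left h6 h8.le) h9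
  have hPW : ∀ u ∈ Ico (0 : ℝ) 1, ∀ n, (S1 M hM).P u n ≤
      Real.exp C0 * (R ((S1 M hM).code u) n * (W n)⁻¹) ^ s := by
    intro u hu n
    have hR := R_pos ((S1 M hM).code_good hu).1 n
    have h0 := hW1 n
    have h1 := P_le (S1 M hM) hu _ (hq u hu) n
    have h2 := hC0 n
    have h3 : ∑ i ∈ Finset.range n, (if IsSquare i then 2 * Real.log ((i : ℝ) + 3) else -η) ≤
        C0 + s * Real.log ((W n)⁻¹) := by
      rw [Real.log_inv]
      have h4 : 0 ≤ Real.log (W n) := Real.log_nonneg h0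
      have h5 : Real.log (W n) = Real.log ((M : ℝ) ^ 2 * (M + n + 4)) := rfl
      nlinarith
    rw [Real.mul_rpow hR.le (by positivity)]
    calc (S1 M hM).P u n ≤ _ := h1
      _ ≤ R ((S1 M hM).code u) n ^ s * Real.exp (C0 + s * Real.log ((W n)⁻¹)) :=
          mul_le_mul_of_nonneg_left (Real.exp_le_exp.2 h3) (Real.rpow_nonneg hR.le _)
      _ = _ := by
          rw [Real.exp_add, Real.rpow_def_of_pos (show 0 < (W n)⁻¹ by positivity), mul_comm s]
          ring
  refine (S1 M hM).dim (C := Real.exp C0) (Real.exp_pos _).le hs ?_ ?_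
  · intro u hu
    have h1 : Tendsto (fun n : ℕ => Real.exp C0 * ((1 / 2 : ℝ) ^ s) ^ n) atTop (𝓝 0) := by
      have h2 : (1 / 2 : ℝ) ^ s < 1 := Real.rpow_lt_one (by norm_num) (by norm_num) hs
      have h3 := (tendsto_pow_atTop_nhds_zero_of_lt_one (by positivity) h2).const_mul
        (Real.exp C0)
      rwa [mul_zero] at h3
    refine squeeze_zero (fun n => (S1 M hM).P_nonneg u n) (fun n => ?_) h1
    refine (hPW u hu n).trans (mul_le_mul_of_nonneg_left ?_ (Real.exp_pos _).le)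
    have hR := R_pos ((S1 M hM).code_good hu).1 n
    have hR2 := R_le ((S1 M hM).code_good hu).1 n
    have h0 := hW1 n
    have h4 : (W n)⁻¹ ≤ 1 := inv_le_one_of_one_le₀ h0
    have h5 : 0 ≤ (W n)⁻¹ := by positivity
    rw [← Real.rpow_natCast, ← Real.rpow_mul (by norm_num), mul_comm s, Real.rpow_mul (by norm_num),
      Real.rpow_natCast]
    apply Real.rpow_le_rpow (by positivity) _ hs.le
    nlinarith
  · intro u hu v hv n hlt hagree
    have gu := (S1 M hM).code_good hu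
    have gv := (S1 M hM).code_good hv
    have hR := R_pos gu.1 n
    have hns : ¬ IsSquare n := by
      intro hn
      rw [S1_square hM u hn, S1_square hM v hn] at hlt
      exact lt_irrefl _ hlt
    have h1 := hPW u hu n
    have hP := (S1 M hM).P_nonneg u n
    have hU := (S1 M hM).U_mem hu n
    have hV := (S1 M hM).U_mem hv n
    have h2 : (S1 M hM).P u n * ((S1 M hM).U v n - (S1 M hM).U u n) ≤ (S1 M hM).P u n := by
      nlinarith [hU.1, hV.2]
    refine (h2.trans h1).trans (mul_le_mul_of_nonneg_left ?_ (Real.exp_pos _).le)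
    have h0 := hW1 n
    apply Real.rpow_le_rpow (by positivity) _ hs.le
    apply mul_le_mul_of_nonneg_left _ hR.le
    have h7 : 0 ≤ 1 / ((S1 M hM).code v n : ℝ) - 1 / (((S1 M hM).code u n : ℝ) - 1) := by
      rw [sub_nonneg]
      have h8 := cast_two_le (gv.1 n)
      have h9 : (((S1 M hM).code v n : ℝ)) + 1 ≤ (S1 M hM).code u n := by exact_mod_cast hlt
      apply one_div_le_one_div_of_le (by linarith) (by linarith)
    have h8 : (M : ℝ)⁻¹ ^ 2 ≤ len ((S1 M hM).code v n) := by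
      have h9 := S1_le hM hv hns
      have h10 := len_anti (gv.1 n) h9
      refine le_trans ?_ h10
      unfold len
      rw [inv_pow, one_div]
      apply inv_anti₀ (by nlinarith)
      nlinarith
    have h9 : ((M : ℝ) + n + 4)⁻¹ ≤ 1 / ((S1 M hM).code v (n + 1) : ℝ) := by
      rw [one_div]
      have h10 := cast_two_le (gv.1 (n + 1))
      apply inv_anti₀ (by linarith)
      by_cases hs2 : IsSquare (n + 1)
      · rw [S1_square hM v hs2]
        push_cast
        linarith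
      · have h11 : ((S1 M hM).code v (n + 1) : ℝ) ≤ M := by exact_mod_cast S1_le hM hv hs2
        have : (0 : ℝ) ≤ n := by positivity
        linarith
    have h10 : (W n)⁻¹ = (M : ℝ)⁻¹ ^ 2 * ((M : ℝ) + n + 4)⁻¹ := by
      rw [hW]
      simp only
      rw [mul_inv, inv_pow]
    rw [h10]
    have h11 : (M : ℝ)⁻¹ ^ 2 * ((M : ℝ) + n + 4)⁻¹ ≤
        len ((S1 M hM).code v n) * (1 / ((S1 M hM).code v (n + 1) : ℝ)) := by
      apply mul_le_mul h8 h9 (by positivity) (len_pos (gv.1 n)).le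
    linarith

/-! ### The second scheme: changing the large digits -/

lemma T_ge (n : ℕ) : n + 3 ≤ T n := by
  unfold T
  have : n + 2 < 2 ^ (n + 2) := Nat.lt_two_pow_self
  omega

lemma T_cast_pos (n : ℕ) : (0 : ℝ) < T n := by
  have := T_ge n
  have : 0 < T n := by omega
  exact_mod_cast this

lemma floor_lt_T (n : ℕ) {u : ℝ} (hu : u ∈ Ico (0 : ℝ) 1) : ⌊(T n : ℝ) * u⌋₊ < T n := by
  have h := T_cast_pos n
  rw [Nat.floor_lt (mul_nonneg h.le hu.1)]
  nlinarith [hu.2]

open Classical in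
/-- The scheme which replaces the digits of `e` at the squares. -/
noncomputable def S2 (e : ℕ → ℕ) (he : ∀ i, 2 ≤ e i) : Scheme where
  st := fun n u => if IsSquare n then (T n : ℝ) * u - (⌊(T n : ℝ) * u⌋₊ : ℝ) else u
  dg := fun n u => if IsSquare n then 2 * T n - 1 - ⌊(T n : ℝ) * u⌋₊ else e n
  p := fun n _ => if IsSquare n then 1 / (T n : ℝ) else 1
  st_mem := fun n u hu => by
    split_ifs
    · have h1 := mul_nonneg (T_cast_pos n).le hu.1
      have h2 := Nat.floor_le h1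
      have h3 := Nat.lt_floor_add_one ((T n : ℝ) * u)
      constructor <;> linarith
    · exact hu
  dg_two := fun n u hu => by
    split_ifs
    · have h1 := floor_lt_T n hu
      have h2 := T_ge n
      omega
    · exact he n
  dg_three := fun n u hu hn => by
    rw [if_pos hn]
    have h1 := floor_lt_T n hu
    have h2 := T_ge n
    omega
  p_nonneg := fun n d => by
    split_ifs <;> positivity
  same := fun n u hu v hv h => by
    split_ifs at h ⊢
    · have h1 := floor_lt_T n hu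
      have h2 := floor_lt_T n hv
      have h3 : ⌊(T n : ℝ) * u⌋₊ = ⌊(T n : ℝ) * v⌋₊ := by omega
      have h4 := T_cast_pos n
      rw [h3]
      field_simp
      ring
    · ring
  order := fun n u hu v hv h => by
    split_ifs
    · have h4 := T_cast_pos n
      have h3 : ⌊(T n : ℝ) * u⌋₊ ≤ ⌊(T n : ℝ) * v⌋₊ := Nat.floor_mono (by nlinarith)
      omega
    · exact le_rfl

lemma S2_nonsquare {e : ℕ → ℕ} (he : ∀ i, 2 ≤ e i) (u : ℝ) {n : ℕ} (hn : ¬ IsSquare n) :
    (S2 e he).code u n = e n := by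
  unfold Scheme.code S2
  simp only
  rw [if_neg hn]

lemma S2_square {e : ℕ → ℕ} (he : ∀ i, 2 ≤ e i) (u : ℝ) {n : ℕ} (hn : IsSquare n) :
    (S2 e he).code u n = 2 * T n - 1 - ⌊(T n : ℝ) * (S2 e he).U u n⌋₊ := by
  unfold Scheme.code
  conv_lhs => unfold S2
  simp only
  rw [if_pos hn]
  rfl

lemma S2_square_bounds {e : ℕ → ℕ} (he : ∀ i, 2 ≤ e i) {u : ℝ} (hu : u ∈ Ico (0 : ℝ) 1) {n : ℕ}
    (hn : IsSquare n) : T n ≤ (S2 e he).code u n ∧ (S2 e he).code u n < 2 * T n := by
  rw [S2_square he u hn]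
  have h1 := floor_lt_T n ((S2 e he).U_mem hu n)
  have h2 := T_ge n
  omega

lemma gap_alg {t c c' q V d : ℝ} (ht : 0 < t) (h1 : c' < 2 * t) (h2 : c < 2 * t) (h3 : 2 ≤ c')
    (hq : 1 ≤ q) (hc : c = c' + q) (hV : 1 ≤ V) (hd : 0 < d) (hdV : d ≤ V) :
    (8 * t * V)⁻¹ * ((q + 1) / t) ≤ 1 / c' - 1 / (c - 1) + 1 / (c' * (c' - 1)) * (1 / d) := by
  have k6 : 1 / c' - 1 / (c - 1) = (q - 1) / (c' * (c - 1)) := by
    have : c - 1 ≠ 0 := by linarith
    have : c' ≠ 0 := by linarith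
    field_simp
    rw [hc]
    ring
  have k5 : (q - 1) / (4 * t ^ 2) ≤ 1 / c' - 1 / (c - 1) := by
    rw [k6]
    apply div_le_div_of_nonneg_left (by linarith)
    · apply mul_pos <;> linarith
    · nlinarith
  have k7 : (4 * t ^ 2)⁻¹ ≤ 1 / (c' * (c' - 1)) := by
    rw [one_div]
    apply inv_anti₀
    · apply mul_pos <;> linarith
    · nlinarith
  have k8 : V⁻¹ ≤ 1 / d := by
    rw [one_div]
    exact inv_anti₀ hd hdV
  have k10 : (4 * t ^ 2)⁻¹ * V⁻¹ ≤ 1 / (c' * (c' - 1)) * (1 / d) := by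
    apply mul_le_mul k7 k8 (by positivity)
    apply one_div_nonneg.2
    apply mul_nonneg <;> linarith
  have k12 : (8 * t * V)⁻¹ * ((q + 1) / t) = (4 * t ^ 2)⁻¹ * (((q + 1) / 2) * V⁻¹) := by
    have : V ≠ 0 := by linarith
    field_simp
    norm_num
  have k13 : (q - 1) / (4 * t ^ 2) + (4 * t ^ 2)⁻¹ * V⁻¹ =
      (4 * t ^ 2)⁻¹ * ((q - 1) + V⁻¹) := by
    rw [div_eq_mul_inv]; ring
  have k14 : V⁻¹ ≤ 1 := inv_le_one_of_one_le₀ hV
  have k15 : 0 < V⁻¹ := by positivity
  have k16 : (4 * t ^ 2)⁻¹ * (((q + 1) / 2) * V⁻¹) ≤ (4 * t ^ 2)⁻¹ * ((q - 1) + V⁻¹) := by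
    apply mul_le_mul_of_nonneg_left _ (by positivity)
    nlinarith
  rw [k12]
  linarith

lemma S2_q {e : ℕ → ℕ} (he : ∀ i, 2 ≤ e i) {M : ℕ} (hM : 2 ≤ M)
    (heM : ∀ i, ¬ IsSquare i → e i ≤ M) {s : ℝ} (hs : 0 < s) :
    ∀ u ∈ Ico (0 : ℝ) 1, ∀ i, (S2 e he).p i ((S2 e he).code u i) ≤
      len ((S2 e he).code u i) ^ s *
        Real.exp (if IsSquare i then
          s * Real.log 4 - (1 - 2 * s) * (((i : ℝ) + 2) * Real.log 2) else
          2 * s * Real.log M) := by
  have hMc := cast_two_le hM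
  intro u hu i
  have hg := (S2 e he).code_good hu
  by_cases hi : IsSquare i
  · rw [if_pos hi]
    have h1 : (S2 e he).p i ((S2 e he).code u i) = 1 / (T i : ℝ) := by
      conv_lhs => unfold S2
      simp only
      rw [if_pos hi]
    rw [h1]
    have h2 := S2_square_bounds he hu hi
    set d := (S2 e he).code u i with hd
    have h3 : ((d : ℝ)) ≤ 2 * T i := by exact_mod_cast h2.2.le
    have h4 := cast_two_le (hg.1 i)
    rw [← hd] at h4
    have h5 : (4 * (T i : ℝ) ^ 2)⁻¹ ≤ len d := by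
      unfold len
      rw [one_div]
      apply inv_anti₀ (by nlinarith)
      nlinarith
    have hTpos := T_cast_pos i
    have h6 : (4 * (T i : ℝ) ^ 2)⁻¹ ^ s ≤ len d ^ s :=
      Real.rpow_le_rpow (by positivity) h5 hs.le
    have h7 : Real.log (T i : ℝ) = ((i : ℝ) + 2) * Real.log 2 := by
      unfold T
      push_cast
      rw [Real.log_pow]
      push_cast
      ring
    have h8 : (4 * (T i : ℝ) ^ 2)⁻¹ ^ s *
        Real.exp (s * Real.log 4 - (1 - 2 * s) * (((i : ℝ) + 2) * Real.log 2)) =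
        1 / (T i : ℝ) := by
      rw [Real.rpow_def_of_pos (by positivity), ← Real.exp_add, ← h7, Real.log_inv,
        Real.log_mul (by norm_num) (by positivity), Real.log_pow]
      have : -(Real.log 4 + ((2 : ℕ) : ℝ) * Real.log (T i : ℝ)) * s +
          (s * Real.log 4 - (1 - 2 * s) * Real.log (T i : ℝ)) = -Real.log (T i : ℝ) := by
        push_cast; ring
      rw [this, Real.exp_neg, Real.exp_log hTpos, one_div]
    rw [← h8]
    exact mul_le_mul_of_nonneg_right h6 (Real.exp_pos _).le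
  · rw [if_neg hi]
    have h1 : (S2 e he).p i ((S2 e he).code u i) = 1 := by
      conv_lhs => unfold S2
      simp only
      rw [if_neg hi]
    rw [h1, S2_nonsquare he u hi]
    have h2 : (e i : ℝ) ≤ M := by exact_mod_cast heM i hi
    have h4 := cast_two_le (he i)
    have h5 : ((M : ℝ) ^ 2)⁻¹ ≤ len (e i) := by
      unfold len
      rw [one_div]
      apply inv_anti₀ (by nlinarith)
      nlinarith
    have h6 : ((M : ℝ) ^ 2)⁻¹ ^ s ≤ len (e i) ^ s :=
      Real.rpow_le_rpow (by positivity) h5 hs.le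
    have h8 : ((M : ℝ) ^ 2)⁻¹ ^ s * Real.exp (2 * s * Real.log M) = 1 := by
      rw [Real.rpow_def_of_pos (by positivity), ← Real.exp_add, Real.log_inv, Real.log_pow]
      push_cast
      rw [show -(2 * Real.log (M : ℝ)) * s + 2 * s * Real.log M = 0 by ring, Real.exp_zero]
    rw [← h8]
    exact mul_le_mul_of_nonneg_right h6 (Real.exp_pos _).le

lemma S2_dim {e : ℕ → ℕ} (he : ∀ i, 2 ≤ e i) {M : ℕ} (hM : 2 ≤ M)
    (heM : ∀ i, ¬ IsSquare i → e i ≤ M) {s : ℝ} (hs : 0 < s) (hs2 : s < 1 / 2) :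
    ENNReal.ofReal s ≤ dimH ((S2 e he).h '' Ico 0 1) := by
  have hMc := cast_two_le hM
  obtain ⟨C0, hC0⟩ := bound2 hs hs2 hMc
  set W : ℕ → ℝ := fun n => 8 * T n * (M + 2 * T (n + 1)) with hW
  have hT1 : ∀ n, (1 : ℝ) ≤ T n := fun n => by
    have := T_ge n
    exact_mod_cast (by omega : 1 ≤ T n)
  have hW1 : ∀ n, 1 ≤ W n := fun n => by
    rw [hW]
    have h1 := hT1 n
    have h2 := hT1 (n + 1)
    simp only
    nlinarith
  have hq := S2_q he hM heM hs
  have hPW : ∀ u ∈ Ico (0 : ℝ) 1, ∀ n, (S2 e he).P u n ≤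
      Real.exp C0 * (R ((S2 e he).code u) n * (W n)⁻¹) ^ s := by
    intro u hu n
    have hR := R_pos ((S2 e he).code_good hu).1 n
    have h0 := hW1 n
    have h1 := P_le (S2 e he) hu _ (hq u hu) n
    have h2 := hC0 n
    have h3 : ∑ i ∈ Finset.range n, (if IsSquare i then
          s * Real.log 4 - (1 - 2 * s) * (((i : ℝ) + 2) * Real.log 2) else
          2 * s * Real.log M) ≤ C0 + s * Real.log ((W n)⁻¹) := by
      rw [Real.log_inv]
      have h4 : 0 ≤ Real.log (W n) := Real.log_nonneg h0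
      have h5 : Real.log (W n) = Real.log (8 * T n * (M + 2 * T (n + 1))) := rfl
      nlinarith
    rw [Real.mul_rpow hR.le (by positivity)]
    calc (S2 e he).P u n ≤ _ := h1
      _ ≤ R ((S2 e he).code u) n ^ s * Real.exp (C0 + s * Real.log ((W n)⁻¹)) :=
          mul_le_mul_of_nonneg_left (Real.exp_le_exp.2 h3) (Real.rpow_nonneg hR.le _)
      _ = _ := by
          rw [Real.exp_add, Real.rpow_def_of_pos (show 0 < (W n)⁻¹ by positivity), mul_comm s]
          ring
  refine (S2 e he).dim (C := Real.exp C0) (Real.exp_pos _).le hs ?_ ?_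
  · intro u hu
    have h1 : Tendsto (fun n : ℕ => Real.exp C0 * ((1 / 2 : ℝ) ^ s) ^ n) atTop (𝓝 0) := by
      have h2 : (1 / 2 : ℝ) ^ s < 1 := Real.rpow_lt_one (by norm_num) (by norm_num) hs
      have h3 := (tendsto_pow_atTop_nhds_zero_of_lt_one (by positivity) h2).const_mul
        (Real.exp C0)
      rwa [mul_zero] at h3
    refine squeeze_zero (fun n => (S2 e he).P_nonneg u n) (fun n => ?_) h1
    refine (hPW u hu n).trans (mul_le_mul_of_nonneg_left ?_ (Real.exp_pos _).le)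
    have hR := R_pos ((S2 e he).code_good hu).1 n
    have hR2 := R_le ((S2 e he).code_good hu).1 n
    have h0 := hW1 n
    have h4 : (W n)⁻¹ ≤ 1 := inv_le_one_of_one_le₀ h0
    have h5 : 0 ≤ (W n)⁻¹ := by positivity
    rw [← Real.rpow_natCast, ← Real.rpow_mul (by norm_num), mul_comm s, Real.rpow_mul (by norm_num),
      Real.rpow_natCast]
    apply Real.rpow_le_rpow (by positivity) _ hs.le
    nlinarith
  · intro u hu v hv n hlt hagree
    have gu := (S2 e he).code_good hu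
    have gv := (S2 e he).code_good hv
    have hR := R_pos gu.1 n
    have hsq : IsSquare n := by
      by_contra hn
      rw [S2_nonsquare he u hn, S2_nonsquare he v hn] at hlt
      exact lt_irrefl _ hlt
    have h1 := hPW u hu n
    have hP := (S2 e he).P_nonneg u n
    have hU := (S2 e he).U_mem hu n
    have hV := (S2 e he).U_mem hv n
    have hTpos := T_cast_pos n
    have fu := floor_lt_T n hU
    have fv := floor_lt_T n hV
    have cu := S2_square he u hsq
    have cv := S2_square he v hsq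
    set j := ⌊(T n : ℝ) * (S2 e he).U u n⌋₊ with hj
    set j' := ⌊(T n : ℝ) * (S2 e he).U v n⌋₊ with hj'
    set cc := (S2 e he).code u n with hcc
    set cc' := (S2 e he).code v n with hcc'
    have hbu := S2_square_bounds he hu hsq
    have hbv := S2_square_bounds he hv hsq
    rw [← hcc] at hbu
    rw [← hcc'] at hbv
    have hjj : j' = j + (cc - cc') := by omega
    -- the number `y = (q+1)/T`
    have hccr : ((cc : ℝ)) = cc' + ((cc - cc' : ℕ) : ℝ) := by
      have : cc = cc' + (cc - cc') := by omega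
      exact_mod_cast this
    set q : ℕ := cc - cc' with hq'
    have hq1 : (1 : ℝ) ≤ q := by
      have : 1 ≤ q := by omega
      exact_mod_cast this
    have hqT : (q : ℝ) + 1 ≤ T n := by
      have : q + 1 ≤ T n := by omega
      exact_mod_cast this
    have hy1 : ((q : ℝ) + 1) / T n ≤ 1 := by rw [div_le_one hTpos]; exact hqT
    have hy0 : 0 < ((q : ℝ) + 1) / T n := by positivity
    have hUV : (S2 e he).U v n - (S2 e he).U u n ≤ ((q : ℝ) + 1) / T n := by
      rw [le_div_iff₀ hTpos]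
      have g1 := Nat.lt_floor_add_one ((T n : ℝ) * (S2 e he).U v n)
      have g2 := Nat.floor_le (mul_nonneg hTpos.le hU.1)
      rw [← hj'] at g1
      rw [← hj] at g2
      have g3 : (j' : ℝ) = j + q := by exact_mod_cast hjj
      nlinarith
    have hWn : (0 : ℝ) < W n := by linarith [hW1 n]
    -- the gap
    have hV0 : (0 : ℝ) < (M : ℝ) + 2 * T (n + 1) := by positivity
    have hgap : (W n)⁻¹ * (((q : ℝ) + 1) / T n) ≤ 1 / (cc' : ℝ) - 1 / ((cc : ℝ) - 1) +
        len cc' * (1 / ((S2 e he).code v (n + 1) : ℝ)) := by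
      have k1 : ((cc' : ℝ)) < 2 * T n := by exact_mod_cast hbv.2
      have k2 : ((cc : ℝ)) < 2 * T n := by exact_mod_cast hbu.2
      have k3 := cast_two_le (gv.1 n)
      rw [← hcc'] at k3
      have k9 := cast_two_le (gv.1 (n + 1))
      have k10 := T_cast_pos (n + 1)
      refine gap_alg hTpos k1 k2 k3 hq1 hccr (by linarith) (by linarith) ?_
      by_cases hs3 : IsSquare (n + 1)
      · have : ((S2 e he).code v (n + 1) : ℝ) < 2 * T (n + 1) := by
          exact_mod_cast (S2_square_bounds he hv hs3).2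
        linarith
      · rw [S2_nonsquare he v hs3]
        have : (e (n + 1) : ℝ) ≤ M := by exact_mod_cast heM _ hs3
        linarith
    have hRW : 0 ≤ R ((S2 e he).code u) n * (W n)⁻¹ := by positivity
    calc (S2 e he).P u n * ((S2 e he).U v n - (S2 e he).U u n)
        ≤ (S2 e he).P u n * (((q : ℝ) + 1) / T n) := mul_le_mul_of_nonneg_left hUV hP
      _ ≤ (Real.exp C0 * (R ((S2 e he).code u) n * (W n)⁻¹) ^ s) * (((q : ℝ) + 1) / T n) ^ s := by
          apply mul_le_mul h1 _ hy0.le (mul_nonneg (Real.exp_pos _).le (Real.rpow_nonneg hRW _))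
          calc ((q : ℝ) + 1) / T n = (((q : ℝ) + 1) / T n) ^ (1 : ℝ) := (Real.rpow_one _).symm
            _ ≤ (((q : ℝ) + 1) / T n) ^ s :=
                Real.rpow_le_rpow_of_exponent_ge hy0 hy1 (by linarith)
      _ = Real.exp C0 * ((R ((S2 e he).code u) n * (W n)⁻¹) * (((q : ℝ) + 1) / T n)) ^ s := by
          rw [Real.mul_rpow hRW hy0.le]; ring
      _ ≤ _ := by
          apply mul_le_mul_of_nonneg_left _ (Real.exp_pos _).le
          apply Real.rpow_le_rpow (by positivity) _ hs.le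
          rw [mul_assoc]
          exact mul_le_mul_of_nonneg_left hgap hR.le

/-! ### Lower bound for the asymptotic set -/

lemma ofReal_le_of_forall {a : ℝ} {D : ℝ≥0∞} (ha : 0 < a)
    (h : ∀ s, 0 < s → s < a → ENNReal.ofReal s ≤ D) : ENNReal.ofReal a ≤ D := by
  refine le_of_forall_lt_imp_le_of_dense fun t ht => ?_
  have ht' : t ≠ ⊤ := ne_top_of_lt ht
  have h1 : t.toReal < a := by
    rw [← ENNReal.ofReal_toReal ht'] at ht
    exact (ENNReal.ofReal_lt_ofReal_iff ha).1 ht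
  have h2 := h (max t.toReal (a / 2)) (lt_max_of_lt_right (by linarith))
    (max_lt h1 (by linarith))
  refine le_trans ?_ h2
  rw [← ENNReal.ofReal_toReal ht']
  apply ENNReal.ofReal_le_ofReal
  rw [ENNReal.toReal_ofReal ENNReal.toReal_nonneg]
  exact le_max_left _ _


lemma close (k : ℕ) : ∀ (n : ℕ) (e c : ℕ → ℕ), Good e → Good c →
    (∀ i, ¬ IsSquare i → e i = c i) → (∀ i, IsSquare i → i + 3 ≤ e i ∧ i + 3 ≤ c i) →
    IsSquare (n + k) → |pt (sh n e) - pt (sh n c)| ≤ 1 / ((n : ℝ) + 2) := by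
  induction k with
  | zero =>
    intro n e c ge gc h1 h2 h3
    have hsmall : ∀ e : ℕ → ℕ, Good e → n + 3 ≤ e n → 0 ≤ pt (sh n e) ∧
        pt (sh n e) ≤ 1 / ((n : ℝ) + 2) := by
      intro e ge he
      have h4 := pt_bounds (ge.sh n)
      have h5 : sh n e 0 = e n := rfl
      rw [h5] at h4
      have h6 : ((n : ℝ) + 3) ≤ e n := by exact_mod_cast he
      refine ⟨pt_nonneg (ge.sh n).1, h4.2.le.trans ?_⟩
      apply one_div_le_one_div_of_le (by positivity)
      linarith
    have h4 := hsmall e ge (h2 n h3).1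
    have h5 := hsmall c gc (h2 n h3).2
    rw [abs_le]
    constructor <;> linarith [h4.1, h4.2, h5.1, h5.2]
  | succ k ih =>
    intro n e c ge gc h1 h2 h3
    by_cases hn : IsSquare n
    · have hsmall : ∀ e : ℕ → ℕ, Good e → n + 3 ≤ e n → 0 ≤ pt (sh n e) ∧
          pt (sh n e) ≤ 1 / ((n : ℝ) + 2) := by
        intro e ge he
        have h4 := pt_bounds (ge.sh n)
        have h5 : sh n e 0 = e n := rfl
        rw [h5] at h4
        have h6 : ((n : ℝ) + 3) ≤ e n := by exact_mod_cast he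
        refine ⟨pt_nonneg (ge.sh n).1, h4.2.le.trans ?_⟩
        apply one_div_le_one_div_of_le (by positivity)
        linarith
      have h4 := hsmall e ge (h2 n hn).1
      have h5 := hsmall c gc (h2 n hn).2
      rw [abs_le]
      constructor <;> linarith [h4.1, h4.2, h5.1, h5.2]
    · have h4 := ih (n + 1) e c ge gc h1 h2 (by rwa [add_assoc, add_comm 1 k])
      rw [pt_rec (ge.sh n).1, pt_rec (gc.sh n).1]
      have h5 : sh n e 0 = sh n c 0 := h1 n hn
      rw [← h5, br_sub, abs_mul, sh_sh, sh_sh]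
      have h6 := len_pos ((ge.sh n).1 0)
      have h7 := len_le ((ge.sh n).1 0)
      rw [abs_of_pos h6]
      have h8 : 1 / (((n + 1 : ℕ) : ℝ) + 2) ≤ 1 / ((n : ℝ) + 2) := by
        apply one_div_le_one_div_of_le (by positivity)
        push_cast
        linarith
      have h9 := abs_nonneg (pt (sh (n + 1) e) - pt (sh (n + 1) c))
      nlinarith

lemma AS_lower {L : ℝ → ℝ} (hL : IsLuroth L) {e : ℕ → ℕ} (ge : Good e) {M : ℕ} (hM : 2 ≤ M)
    (heM : ∀ i, ¬ IsSquare i → e i ≤ M) (hes : ∀ i, IsSquare i → e i = i + 3) :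
    1 / 2 ≤ dimH (AS L (pt e)) := by
  have hsub : (S2 e ge.1).h '' Ico 0 1 ⊆ AS L (pt e) := by
    rintro _ ⟨u, hu, rfl⟩
    have gc := (S2 e ge.1).code_good hu
    have hm := pt_mem gc
    refine ⟨⟨hm.1, hm.2.le⟩, ?_⟩
    have h1 : Tendsto (fun n : ℕ => 1 / ((n : ℝ) + 2)) atTop (𝓝 0) :=
      Tendsto.div_atTop tendsto_const_nhds
        (tendsto_atTop_add_const_right _ _ tendsto_natCast_atTop_atTop)
    refine squeeze_zero (fun n => abs_nonneg _) (fun n => ?_) h1
    unfold Scheme.h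
    rw [iterate_pt hL ge, iterate_pt hL gc]
    refine close (n * n - n) n e _ ge gc (fun i hi => (S2_nonsquare ge.1 u hi).symm)
      (fun i hi => ?_) ?_
    · rw [hes i hi]
      exact ⟨le_rfl, (T_ge i).trans (S2_square_bounds ge.1 hu hi).1⟩
    · rw [Nat.add_sub_cancel' (Nat.le_mul_self n)]
      exact ⟨n, rfl⟩
  have h2 : (1 / 2 : ℝ≥0∞) = ENNReal.ofReal (1 / 2) := by
    rw [ENNReal.ofReal_div_of_pos (by norm_num)]
    simp
  rw [h2]
  exact ofReal_le_of_forall (by norm_num) fun s hs hs2 =>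
    (S2_dim ge.1 hM heM hs hs2).trans (dimH_mono hsub)

/-! ### Upper bound for the asymptotic set -/

lemma nonsquare_exists (n : ℕ) : ∃ i, n ≤ i ∧ ¬ IsSquare i := by
  refine ⟨(n + 1) * (n + 1) + 1, by nlinarith, ?_⟩
  rintro ⟨k, hk⟩
  have h1 : n + 1 < k := by
    by_contra h
    push Not at h
    have := Nat.mul_le_mul h h
    omega
  have h2 : n + 2 ≤ k := h1
  have := Nat.mul_le_mul h2 h2
  nlinarith

/-- The points which stay near the orbit with digits `e` from the time `n` on. -/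
def Z (L : ℝ → ℝ) (e : ℕ → ℕ) (ε : ℝ) (n : ℕ) : Set ℝ :=
  {y | y ∈ Ico (0 : ℝ) 1 ∧ ∀ i : ℕ, |L^[i] y - pt (sh (n + i) e)| < ε}

lemma Z_zero_not_mem {L : ℝ → ℝ} (hL : IsLuroth L) {e : ℕ → ℕ} (ge : Good e) {M : ℕ}
    (heM : ∀ i, ¬ IsSquare i → e i ≤ M) {ε : ℝ} (hε : ε ≤ 1 / (M : ℝ)) (n : ℕ) :
    (0 : ℝ) ∉ Z L e ε n := by
  intro h
  obtain ⟨i, hi, hns⟩ := nonsquare_exists n
  have h1 := h.2 (i - n)
  rw [Nat.add_sub_cancel' hi] at h1
  have h2 : L^[i - n] 0 = 0 := Function.iterate_fixed hL.zero _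
  rw [h2, zero_sub, abs_neg, abs_of_nonneg (pt_nonneg (ge.sh i).1)] at h1
  have h3 := (pt_bounds (ge.sh i)).1
  have h4 : sh i e 0 = e i := rfl
  rw [h4] at h3
  have h5 := cast_two_le (ge.1 i)
  have h6 : (e i : ℝ) ≤ M := by exact_mod_cast heM i hns
  have h7 : 1 / (M : ℝ) ≤ 1 / (e i : ℝ) := one_div_le_one_div_of_le (by linarith) h6
  linarith

lemma Z_step {L : ℝ → ℝ} (hL : IsLuroth L) {e : ℕ → ℕ} (ge : Good e) {M : ℕ} (hM : 2 ≤ M)
    (heM : ∀ i, ¬ IsSquare i → e i ≤ M) {ε : ℝ} (hε : ε ≤ 1 / (8 * (M : ℝ) ^ 2)) {n : ℕ} {y : ℝ}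
    (hy : y ∈ Z L e ε n) : ∃ d : ℕ, 2 ≤ d ∧ L y ∈ Z L e ε (n + 1) ∧ y = br d (L y) ∧
      (¬ IsSquare n → d = e n) := by
  have hMc := cast_two_le hM
  have hε1 : ε ≤ 1 / (M : ℝ) := by
    refine hε.trans (one_div_le_one_div_of_le (by linarith) ?_)
    nlinarith
  have hε2 : ε ≤ 1 / 2 := by
    refine hε.trans (one_div_le_one_div_of_le (by norm_num) ?_)
    nlinarith
  have hy0 : y ≠ 0 := by
    rintro rfl
    exact Z_zero_not_mem hL ge heM hε1 n hy
  obtain ⟨d, hd, hLy, hyd⟩ := exists_digit hL ⟨lt_of_le_of_ne hy.1.1 (Ne.symm hy0), hy.1.2⟩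
  refine ⟨d, hd, ⟨hLy, fun i => ?_⟩, hyd, fun hn => ?_⟩
  · have := hy.2 (i + 1)
    rw [Function.iterate_succ_apply] at this
    rwa [add_assoc, add_comm 1 i]
  · have h0 := hy.2 0
    have h1 := hy.2 1
    simp only [Function.iterate_zero, id, add_zero, Function.iterate_one] at h0 h1
    have hx := pt_rec (ge.sh n).1
    rw [sh_sh] at hx
    have hD : sh n e 0 = e n := rfl
    rw [hD] at hx
    have hx1 := pt_mem (ge.sh (n + 1))
    set x := pt (sh n e) with hxdef
    set x' := pt (sh (n + 1) e) with hx'def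
    have hDM : (e n : ℝ) ≤ M := by exact_mod_cast heM n hn
    have hD2 := cast_two_le (ge.1 n)
    have hd2 := cast_two_le hd
    have lD := len_eq (ge.1 n)
    have ld := len_eq hd
    have lDpos := len_pos (ge.1 n)
    have ldpos := len_pos hd
    rw [abs_lt] at h0 h1
    rw [br_eq] at hx hyd
    have hMM : 1 / ((M : ℝ) ^ 2) = 8 * (1 / (8 * (M : ℝ) ^ 2)) := by field_simp
    have lDM : 1 / ((M : ℝ) ^ 2) ≤ len (e n) := by
      unfold len
      apply one_div_le_one_div_of_le (by nlinarith)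
      nlinarith
    rcases lt_trichotomy d (e n) with h | h | h
    · exfalso
      -- `y` is to the right of `x`
      have h2 : (d : ℝ) + 1 ≤ e n := by exact_mod_cast h
      have h3 : 1 / ((e n : ℝ) - 1) ≤ 1 / (d : ℝ) :=
        one_div_le_one_div_of_le (by linarith) (by linarith)
      have h4 : 0 ≤ len d * L y := mul_nonneg ldpos.le hLy.1
      have h5 : len (e n) ≤ len d := len_anti hd h.le
      have h6 : len (e n) * (1 - x' + L y) ≤ y - x := by
        rw [hx]
        have : len (e n) * L y ≤ len d * L y := mul_le_mul_of_nonneg_right h5 hLy.1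
        nlinarith
      have h7 : 1 / 2 ≤ 1 - x' + L y := by linarith [h1.1, h1.2, hx1.2]
      have h8 : 1 / ((M : ℝ) ^ 2) * (1 / 2) ≤ len (e n) * (1 - x' + L y) :=
        mul_le_mul lDM h7 (by norm_num) lDpos.le
      linarith [h0.1, h0.2]
    · exact h
    · exfalso
      have h2 : (e n : ℝ) + 1 ≤ d := by exact_mod_cast h
      have h3 : 1 / ((d : ℝ) - 1) ≤ 1 / (e n : ℝ) :=
        one_div_le_one_div_of_le (by linarith) (by linarith)
      have h5 : len d ≤ len (e n) := len_anti (ge.1 n) h.le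
      have h6 : len d * (1 - L y + x') + (1 / (e n : ℝ) - 1 / ((d : ℝ) - 1)) ≤ x - y := by
        rw [hx]
        have : len d * x' ≤ len (e n) * x' := mul_le_mul_of_nonneg_right h5 hx1.1
        nlinarith
      have h7 : 1 / 2 ≤ 1 - L y + x' := by linarith [h1.1, h1.2, hLy.2]
      rcases le_total (d : ℝ) (2 * M) with h8 | h8
      · have h9 : 1 / (4 * (M : ℝ) ^ 2) ≤ len d := by
          unfold len
          apply one_div_le_one_div_of_le (by nlinarith)
          nlinarith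
        have h10 : 1 / (4 * (M : ℝ) ^ 2) * (1 / 2) ≤ len d * (1 - L y + x') :=
          mul_le_mul h9 h7 (by norm_num) ldpos.le
        have h11 : 1 / (4 * (M : ℝ) ^ 2) * (1 / 2) = 1 / (8 * (M : ℝ) ^ 2) := by
          field_simp; norm_num
        linarith [h0.1, h0.2]
      · have h9 : 1 / (M : ℝ) ≤ 1 / (e n : ℝ) := one_div_le_one_div_of_le (by linarith) hDM
        have h10 : 1 / ((d : ℝ) - 1) ≤ 1 / ((3 / 2) * (M : ℝ)) :=
          one_div_le_one_div_of_le (by linarith) (by linarith)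
        have h11 : 1 / (M : ℝ) - 1 / ((3 / 2) * (M : ℝ)) = 1 / (3 * M) := by field_simp; norm_num
        have h12 : 0 ≤ len d * (1 - L y + x') := mul_nonneg ldpos.le (by linarith)
        have h13 : 1 / (8 * (M : ℝ) ^ 2) ≤ 1 / (3 * M) :=
          one_div_le_one_div_of_le (by linarith) (by nlinarith)
        linarith [h0.1, h0.2]

/-- Covers at the level `m`. -/
def Cov (s : ℝ) (ρ : ℝ≥0∞) (m : ℕ) (A : Set ℝ) : Prop :=
  ∃ (ι : Type) (_ : Countable ι) (t : ι → Set ℝ), A ⊆ ⋃ i, t i ∧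
    (∀ i, Metric.ediam (t i) ≤ (1 / 2) ^ m) ∧ ∑' i, Metric.ediam (t i) ^ s ≤ ρ ^ m

lemma br_lipschitz {d : ℕ} (hd : 2 ≤ d) : LipschitzWith (Real.toNNReal (len d)) (br d) := by
  refine LipschitzWith.of_dist_le_mul fun x y => ?_
  rw [Real.dist_eq, br_sub, abs_mul, abs_of_pos (len_pos hd), Real.coe_toNNReal _ (len_pos hd).le,
    Real.dist_eq]

lemma Cov.zero {s : ℝ} (hs : 0 < s) {ρ : ℝ≥0∞} {A : Set ℝ} (hA : A ⊆ Ico 0 1) : Cov s ρ 0 A := by
  refine ⟨Unit, inferInstance, fun _ => Ico 0 1, ?_, ?_, ?_⟩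
  · rw [iUnion_const]; exact hA
  · intro _
    rw [pow_zero]
    refine Metric.ediam_le fun x hx y hy => ?_
    rw [edist_dist, Real.dist_eq]
    apply ENNReal.ofReal_le_one.2
    rw [abs_le]
    constructor <;> linarith [hx.1, hx.2, hy.1, hy.2]
  · rw [tsum_fintype]
    simp only [Finset.univ_unique, Finset.sum_const, Finset.card_singleton, one_smul, pow_zero]
    have h1 : Metric.ediam (Ico (0 : ℝ) 1) ≤ 1 := by
      refine Metric.ediam_le fun x hx y hy => ?_
      rw [edist_dist, Real.dist_eq]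
      apply ENNReal.ofReal_le_one.2
      rw [abs_le]
      constructor <;> linarith [hx.1, hx.2, hy.1, hy.2]
    calc Metric.ediam (Ico (0 : ℝ) 1) ^ s ≤ 1 ^ s := ENNReal.rpow_le_rpow h1 hs.le
      _ = 1 := ENNReal.one_rpow s

lemma Cov.extend {s : ℝ} (hs : 0 < s) {ρ : ℝ≥0∞} {m : ℕ} {A B : Set ℝ} (hB : Cov s ρ m B)
    {κ : Type} [Countable κ] (dig : κ → ℕ) (hdig : ∀ k, 2 ≤ dig k)
    (hsum : ∑' k, ENNReal.ofReal (len (dig k) ^ s) ≤ ρ)
    (hA : ∀ y ∈ A, ∃ k, ∃ z ∈ B, y = br (dig k) z) : Cov s ρ (m + 1) A := by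
  obtain ⟨ι, hι, t, h1, h2, h3⟩ := hB
  have hd : ∀ k i, Metric.ediam (br (dig k) '' t i) ≤
      ENNReal.ofReal (len (dig k)) * Metric.ediam (t i) := fun k i =>
    (br_lipschitz (hdig k)).ediam_image_le (t i)
  refine ⟨κ × ι, inferInstance, fun p => br (dig p.1) '' t p.2, ?_, ?_, ?_⟩
  · intro y hy
    obtain ⟨k, z, hz, rfl⟩ := hA y hy
    obtain ⟨i, hi⟩ := mem_iUnion.1 (h1 hz)
    exact mem_iUnion.2 ⟨(k, i), mem_image_of_mem _ hi⟩
  · rintro ⟨k, i⟩
    refine (hd k i).trans ?_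
    rw [pow_succ, mul_comm]
    refine mul_le_mul' (h2 i) ?_
    rw [one_div, ← ENNReal.ofReal_ofNat, ← ENNReal.ofReal_inv_of_pos (by norm_num)]
    apply ENNReal.ofReal_le_ofReal
    rw [← one_div]
    exact len_le (hdig k)
  · calc ∑' p : κ × ι, Metric.ediam (br (dig p.1) '' t p.2) ^ s
        ≤ ∑' p : κ × ι, ENNReal.ofReal (len (dig p.1) ^ s) * Metric.ediam (t p.2) ^ s := by
          refine ENNReal.tsum_le_tsum fun p => ?_
          rw [← ENNReal.ofReal_rpow_of_nonneg (len_pos (hdig p.1)).le hs.le,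
            ← ENNReal.mul_rpow_of_nonneg _ _ hs.le]
          exact ENNReal.rpow_le_rpow (hd p.1 p.2) hs.le
      _ = (∑' k, ENNReal.ofReal (len (dig k) ^ s)) * ∑' i, Metric.ediam (t i) ^ s := by
          rw [ENNReal.tsum_prod']
          simp only [ENNReal.tsum_mul_left, ENNReal.tsum_mul_right]
      _ ≤ ρ * ρ ^ m := mul_le_mul' hsum h3
      _ = ρ ^ (m + 1) := by rw [pow_succ, mul_comm]

lemma dim_of_Cov {s : ℝ} (hs : 0 < s) {ρ : ℝ≥0∞} (hρ : ρ < 1) {A : Set ℝ}
    (h : ∀ m, Cov s ρ m A) : dimH A ≤ ENNReal.ofReal s := by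
  choose ι hι t h1 h2 h3 using h
  have hlim : Tendsto (fun m : ℕ => ((1 / 2 : ℝ≥0∞)) ^ m) atTop (𝓝 0) :=
    ENNReal.tendsto_pow_atTop_nhds_zero_of_lt_one (by
      rw [one_div]; exact ENNReal.inv_lt_one.2 (by norm_num))
  have hμ : μH[s] A ≤ 0 := by
    refine (Measure.hausdorffMeasure_le_liminf_tsum s A (fun m : ℕ => ((1 / 2 : ℝ≥0∞)) ^ m) hlim t
      (Eventually.of_forall h2) (Eventually.of_forall h1)).trans ?_
    have h4 : Tendsto (fun m : ℕ => ρ ^ m) atTop (𝓝 0) :=
      ENNReal.tendsto_pow_atTop_nhds_zero_of_lt_one hρ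
    rw [← h4.liminf_eq]
    exact liminf_le_liminf (Eventually.of_forall h3)
  have h5 : μH[((Real.toNNReal s : ℝ≥0) : ℝ)] A ≠ ⊤ := by
    rw [Real.coe_toNNReal s hs.le]
    exact ne_top_of_le_ne_top ENNReal.zero_ne_top hμ
  exact dimH_le_of_hausdorffMeasure_ne_top h5

lemma tail_small {s : ℝ} (hs : 1 / 2 < s) : ∃ T0 : ℕ, 2 ≤ T0 ∧
    ∑' k : ℕ, ENNReal.ofReal (len (k + T0) ^ s) ≤ ENNReal.ofReal ((1 / 2) ^ s) := by
  have hsum : Summable fun k : ℕ => len (k + 2) ^ s := by
    have h1 : Summable fun k : ℕ => (((k + 1 : ℕ) : ℝ) ^ (2 * s))⁻¹ :=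
      (Real.summable_nat_rpow_inv.2 (by linarith : 1 < 2 * s)).comp_injective
        (add_left_injective 1)
    refine Summable.of_nonneg_of_le (fun k => Real.rpow_nonneg (len_pos (by omega)).le _)
      (fun k => ?_) h1
    have h2 : len (k + 2) ≤ (((k + 1 : ℕ) : ℝ) ^ 2)⁻¹ := by
      unfold len
      rw [one_div]
      have : (0 : ℝ) ≤ k := by positivity
      apply inv_anti₀ (by positivity)
      push_cast
      nlinarith
    calc len (k + 2) ^ s ≤ ((((k + 1 : ℕ) : ℝ) ^ 2)⁻¹) ^ s :=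
          Real.rpow_le_rpow (len_pos (by omega)).le h2 (by linarith)
      _ = _ := by
          rw [Real.inv_rpow (by positivity), ← Real.rpow_natCast, ← Real.rpow_mul (by positivity)]
          norm_num
  have h1 := ENNReal.tendsto_sum_nat_add (fun k : ℕ => ENNReal.ofReal (len (k + 2) ^ s))
    hsum.tsum_ofReal_ne_top
  have h2 : (0 : ℝ≥0∞) < ENNReal.ofReal ((1 / 2) ^ s) := by
    rw [ENNReal.ofReal_pos]; positivity
  obtain ⟨i, hi⟩ := (h1.eventually (gt_mem_nhds h2)).exists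
  exact ⟨i + 2, by omega, by simpa [add_assoc] using hi.le⟩

lemma iterate_dim {L : ℝ → ℝ} (hL : IsLuroth L) (B : Set ℝ) (N : ℕ) :
    dimH {y | y ∈ Ico (0 : ℝ) 1 ∧ L^[N] y ∈ B} ≤ dimH B := by
  induction N with
  | zero => exact dimH_mono fun y hy => hy.2
  | succ N ih =>
    have hsub : {y | y ∈ Ico (0 : ℝ) 1 ∧ L^[N + 1] y ∈ B} ⊆
        {0} ∪ ⋃ d : ℕ, br (d + 2) '' {y | y ∈ Ico (0 : ℝ) 1 ∧ L^[N] y ∈ B} := by
      intro y hy
      by_cases hy0 : y = 0
      · exact Or.inl hy0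
      · right
        obtain ⟨d, hd, hLy, hyd⟩ := exists_digit hL
          ⟨lt_of_le_of_ne hy.1.1 (Ne.symm hy0), hy.1.2⟩
        refine mem_iUnion.2 ⟨d - 2, L y, ⟨hLy, ?_⟩, ?_⟩
        · have := hy.2
          rwa [Function.iterate_succ_apply] at this
        · rw [Nat.sub_add_cancel hd]
          exact hyd.symm
    refine (dimH_mono hsub).trans ?_
    rw [dimH_union, dimH_singleton, dimH_iUnion]
    refine max_le zero_le (iSup_le fun d => ?_)
    exact ((br_lipschitz (by omega)).dimH_image_le _).trans ih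

lemma AS_upper {L : ℝ → ℝ} (hL : IsLuroth L) {e : ℕ → ℕ} (ge : Good e) {M : ℕ} (hM : 2 ≤ M)
    (heM : ∀ i, ¬ IsSquare i → e i ≤ M) (hes : ∀ i, IsSquare i → e i = i + 3) :
    dimH (AS L (pt e)) ≤ 1 / 2 := by
  have hMc := cast_two_le hM
  have key : ∀ s : ℝ, 1 / 2 < s → dimH (AS L (pt e)) ≤ ENNReal.ofReal s := by
    intro s hs
    obtain ⟨T0, hT0, htail⟩ := tail_small hs
    have hT0c := cast_two_le hT0
    set ε : ℝ := min (1 / (8 * (M : ℝ) ^ 2)) (1 / (2 * T0)) with hε
    have hεpos : 0 < ε := by rw [hε]; positivity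
    set ρ : ℝ≥0∞ := ENNReal.ofReal ((1 / 2) ^ s) with hρ
    have hρ1 : ρ < 1 := by
      rw [hρ, ENNReal.ofReal_lt_one]
      exact Real.rpow_lt_one (by norm_num) (by norm_num) (by linarith)
    have hcov : ∀ m, ∀ n, 2 * T0 ≤ n → Cov s ρ m (Z L e ε n) := by
      intro m
      induction m with
      | zero => exact fun n _ => Cov.zero (by linarith) fun y hy => hy.1
      | succ m ih =>
        intro n hn
        by_cases hsq : IsSquare n
        · refine (ih (n + 1) (by omega)).extend (by linarith) (fun k : ℕ => k + T0)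
            (fun k => by omega) htail fun y hy => ?_
          obtain ⟨d, hd, h1, h2, -⟩ := Z_step hL ge hM heM (min_le_left _ _) hy
          have hdT : T0 ≤ d := by
            have h3 := hy.2 0
            simp only [Function.iterate_zero, id, add_zero] at h3
            have h4 := (pt_bounds (ge.sh n)).2
            have h5 : sh n e 0 = n + 3 := hes n hsq
            rw [h5] at h4
            push_cast at h4
            have hnc : (2 * (T0 : ℝ)) ≤ n := by exact_mod_cast hn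
            have h6 : 1 / ((n : ℝ) + 3 - 1) ≤ 1 / (2 * T0) :=
              one_div_le_one_div_of_le (by linarith) (by linarith)
            have h7 : ε ≤ 1 / (2 * T0) := min_le_right _ _
            have h8 : y < 1 / (T0 : ℝ) := by
              have h9 : 1 / (T0 : ℝ) = 1 / (2 * T0) + 1 / (2 * T0) := by field_simp; norm_num
              rw [abs_lt] at h3
              linarith [h3.2]
            have h9 : 1 / (d : ℝ) ≤ y := by
              rw [h2]; exact (br_mem hd h1.1).1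
            have h10 : 1 / (d : ℝ) < 1 / (T0 : ℝ) := lt_of_le_of_lt h9 h8
            have h11 := cast_two_le hd
            rw [div_lt_div_iff_of_pos_left one_pos (by linarith) (by linarith)] at h10
            exact_mod_cast h10.le
          exact ⟨d - T0, L y, h1, by rw [Nat.sub_add_cancel hdT]; exact h2⟩
        · refine (ih (n + 1) (by omega)).extend (by linarith) (fun _ : Unit => e n)
            (fun _ => ge.1 n) ?_ fun y hy => ?_
          · rw [tsum_fintype]
            simp only [Finset.univ_unique, Finset.sum_const, Finset.card_singleton, one_smul]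
            apply ENNReal.ofReal_le_ofReal
            exact Real.rpow_le_rpow (len_pos (ge.1 n)).le (len_le (ge.1 n)) (by linarith)
          · obtain ⟨d, hd, h1, h2, h3⟩ := Z_step hL ge hM heM (min_le_left _ _) hy
            exact ⟨(), L y, h1, by rw [← h3 hsq]; exact h2⟩
    have hsub : AS L (pt e) ⊆ {1} ∪ ⋃ k : ℕ,
        {y | y ∈ Ico (0 : ℝ) 1 ∧ L^[k + 2 * T0] y ∈ Z L e ε (k + 2 * T0)} := by
      intro y hy
      by_cases hy1 : y = 1
      · exact Or.inl hy1
      · right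
        have hyI : y ∈ Ico (0 : ℝ) 1 := ⟨hy.1.1, lt_of_le_of_ne hy.1.2 hy1⟩
        obtain ⟨N, hN⟩ := eventually_atTop.1 (hy.2.eventually (gt_mem_nhds hεpos))
        have hIco : ∀ n, L^[n] y ∈ Ico (0 : ℝ) 1 := by
          intro n
          induction n with
          | zero => exact hyI
          | succ n ih =>
            rw [Function.iterate_succ_apply']
            by_cases h0 : L^[n] y = 0
            · rw [h0, hL.zero]; norm_num
            · obtain ⟨d, -, h1, -⟩ := exists_digit hL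
                ⟨lt_of_le_of_ne ih.1 (Ne.symm h0), ih.2⟩
              exact h1
        refine mem_iUnion.2 ⟨N, hyI, hIco _, fun i => ?_⟩
        have h1 := hN (N + 2 * T0 + i) (by omega)
        rw [iterate_pt hL ge, abs_sub_comm, add_comm (N + 2 * T0) i,
          Function.iterate_add_apply] at h1
        rwa [add_comm (N + 2 * T0) i]
    refine (dimH_mono hsub).trans ?_
    rw [dimH_union, dimH_singleton, dimH_iUnion]
    refine max_le zero_le (iSup_le fun k => ?_)
    exact (iterate_dim hL _ _).trans (dim_of_Cov (by linarith) hρ1 fun m => hcov m _ (by omega))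
  refine le_of_forall_gt_imp_ge_of_dense fun t ht => ?_
  by_cases htop : t = ⊤
  · rw [htop]; exact le_top
  · have h1 := key t.toReal (by
      have h2 : (1 / 2 : ℝ≥0∞).toReal = 1 / 2 := by simp
      rw [← h2]
      exact (ENNReal.toReal_lt_toReal (by simp) htop).2 ht)
    rwa [ENNReal.ofReal_toReal htop] at h1

/-! ### The result -/

/-- The set of points whose asymptotic set has dimension `1/2` has dimension `1`. -/
theorem result : ∀ L : ℝ → ℝ, IsLuroth L → dimH (Theta L (1 / 2)) = 1 := by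
  intro L hL
  refine le_antisymm ?_ ?_
  · refine (dimH_mono (subset_univ _)).trans ?_
    rw [Real.dimH_univ]
  · have h1 : (1 : ℝ≥0∞) = ENNReal.ofReal 1 := by simp
    refine h1.le.trans (ofReal_le_of_forall one_pos fun s hs hs1 => ?_)
    obtain ⟨M, hM, hdim⟩ := S1_dim hs hs1
    refine hdim.trans (dimH_mono ?_)
    rintro _ ⟨u, hu, rfl⟩
    have ge := (S1 M hM).code_good hu
    have hm := pt_mem ge
    have h2 : ∀ i, ¬ IsSquare i → (S1 M hM).code u i ≤ M := fun i hi => S1_le hM hu hi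
    have h3 : ∀ i, IsSquare i → (S1 M hM).code u i = i + 3 := fun i hi => S1_square hM u hi
    exact ⟨⟨hm.1, hm.2.le⟩, le_antisymm (AS_upper hL ge hM h2 h3) (AS_lower hL ge hM h2 h3)⟩

end Pool.Agent.Results.MP_98e33a_an.DimensionOne
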